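import Pool.Agent.Helper84.MT.Leaf0
import Pool.Agent.Helper52.SL.Ext

/-! MULTI-TYPE LAYER: truncations of systems of leaves to a level `r`, their labels. -/

set_option autoImplicit false

namespace Pool.Agent.Helper84.MT

open Finset Filter Topology Matrix Pool.Agent.Helper69.RK Pool.Agent.Helper31.EC Pool.Agent.Helper31.EC.Sp
open Pool.Agent.Helper40.EL Pool.Agent.Helper89.LX Pool.Agent.Helper3.LF
open Pool.Agent.Helper52.SL (untF tnF untL tnL nul_trn cellv_chg untF_leak tnF_leak)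

noncomputable section

variable {S T : Sp} {M : ℕ} {E : ℕ → ℕ} {ι : Type}

/-- conditional entropies of partitions in a space with another depth -/
theorem h_chg_top {F : FSp} (r : ℝ) (h0 : 0 < r) (A B : Setoid F.Ω) :
    h (fc (F := F.chg ⊤ r h0) A) (fc B) = h (fc A) (fc B) := by
  have h1 := (frb F ⊤ r h0).h_map (fc A) (fc B)
  have h2 : (fc (frb F ⊤ r h0).W : FL F) = ⊥ := rfl
  rw [h2, sup_bot_eq] at h1
  exact h1

/-- the truncation of a type of leaves -/
def Leaf.trn {Q : S.VV M} (l : Leaf S Q E) (r : ℝ) (h0 : 0 < r) (h1 : r ≤ 1) :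
    Leaf (S.chg S.tr r h0) (Q.chg S.tr r h0) E where
  e := l.e
  he := l.he
  La := l.La
  Y := l.Y.chg S.tr r h0
  F := l.F
  fn := by
    filter_upwards [l.fn] with k hk ω ω' a b c d
    exact hk ω ω' a b c.2 d
  bd := by
    obtain ⟨K, hK, hb⟩ := l.bd
    exact ⟨K, chg_sub S.tr r h0 hK, hb⟩
  al := l.al
  alg := l.alg
  crF := l.crF
  seg := by
    intro D
    obtain ⟨K, hK, hb⟩ := l.seg D
    exact ⟨K, chg_sub S.tr r h0 hK, hb⟩
  pt := by
    obtain ⟨K, hK, hb⟩ := l.pt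
    refine ⟨K, chg_sub S.tr r h0 hK, ?_⟩
    filter_upwards [hb, hK.1] with k hk hK0 ω hω i
    rw [chg_dl, mul_one]
    exact (hk ω hω i).trans (mul_le_mul_of_nonneg_left (S.dl_anti h1 k) hK0)
  full := by
    have h2 := (l.full_La h0.le h1).const_mul r⁻¹
    have e1 : r⁻¹ * ((l.e : ℝ) * r) = l.e := by
      field_simp
    rw [e1] at h2
    refine h2.congr fun k => ?_
    have e2 := h_chg_top r h0 (F := S.F k) (Setoid.ker (l.Y.cellv r k)) (l.La k)
    show r⁻¹ * (h (fc (Setoid.ker (l.Y.cellv r k))) (fc (l.La k)) / (S.F k).n) =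
      h (fc (F := (S.F k).chg ⊤ r h0) (Setoid.ker ((l.Y.chg S.tr r h0).cellv 1 k))) (fc (l.La k)) / (r * (S.F k).n)
    have e3 : (l.Y.chg S.tr r h0).cellv 1 k = l.Y.cellv r k := (cellv_chg l.Y r h0 1 k).trans (by rw [mul_one])
    have e4 : h (fc (F := (S.F k).chg ⊤ r h0) (Setoid.ker ((l.Y.chg S.tr r h0).cellv 1 k))) (fc (l.La k)) =
        h (fc (Setoid.ker (l.Y.cellv r k))) (fc (l.La k)) :=
      (congrArg (fun f => h (fc (F := (S.F k).chg ⊤ r h0) (Setoid.ker f)) (fc (l.La k))) e3).trans e2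
    have e5 : ∀ x n : ℝ, r⁻¹ * (x / n) = x / (r * n) := by
      intro x n
      rw [← div_div, div_right_comm, div_eq_inv_mul (x / n)]
    exact (e5 _ _).trans (congrArg (fun x => x / (r * (S.F k).n)) e4.symm)

/-- THE TRUNCATION of a system of leaves to the level `r` -/
def MSys.trn (s : MSys S M E ι) (r : ℝ) (h0 : 0 < r) (h1 : r ≤ 1) : MSys (S.chg S.tr r h0) M E ι :=
  ⟨s.Q.chg S.tr r h0, fun i => (s.lf i).trn r h0 h1⟩

/-- the cell of level `r` of the point as a condition -/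
def pcr (Q : S.VV M) (r : ℝ) : Part S := fun k => fc (Setoid.ker (Q.cellv r k))

/-- the conditions of the truncation, in the space of the system -/
def MSys.cndt (s : MSys S M E ι) (r c : ℝ) : Option ι → Part S
  | none => pcr s.Q r
  | some i => (s.lf i).win (r * c)

theorem pcr_one (Q : S.VV M) : pcr Q 1 = pcd Q := rfl

theorem pcr_Bd (Q : S.VV M) (r : ℝ) : (pcr Q r).Bd := rpI_Bd (Q.bdd r).toInf

theorem pcr_mono (Q : S.VV M) {a b : ℝ} (hab : a ≤ b) : PLe (pcr Q a) (pcr Q b) :=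
  PLe_cell_cell Q hab _ (fun _ => le_rfl)

theorem MSys.cndt_one (s : MSys S M E ι) (c : ℝ) (i : Option ι) : s.cndt 1 c i = s.cnd c i := by
  rcases i with _ | i
  · rfl
  · show (s.lf i).win (1 * c) = (s.lf i).win c
    rw [one_mul]

theorem MSys.cndt_le (s : MSys S M E ι) {r c c' : ℝ} (h1 : r ≤ 1) (hc : r * c ≤ c') (i : Option ι) :
    PLe (s.cndt r c i) (s.cnd c' i) := by
  rcases i with _ | i
  · exact pcr_mono s.Q h1
  · exact (s.lf i).win_mono hc

theorem MSys.cndt_mono (s : MSys S M E ι) {r r' c c' : ℝ} (h1 : r ≤ r') (hc : r * c ≤ r' * c') (i : Option ι) :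
    PLe (s.cndt r c i) (s.cndt r' c' i) := by
  rcases i with _ | i
  · exact pcr_mono s.Q h1
  · exact (s.lf i).win_mono hc

/-- the leaks of a label of the truncation -/
theorem MSys.trn_leak (s : MSys S M E ι) {r : ℝ} {h0 : 0 < r} {h1 : r ≤ 1} (c : ℝ) (l : Lab (S.chg S.tr r h0))
    (i : Option ι) (k : ℕ) : (l k).leak ((s.trn r h0 h1).cnd c i k) = ((untL l) k).leak (s.cndt r c i k) := by
  rcases i with _ | i
  · have e1 : (s.Q.chg S.tr r h0).cellv 1 k = s.Q.cellv r k := (cellv_chg s.Q r h0 1 k).trans (by rw [mul_one])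
    exact congrArg (fun f => FLab.leak (F := (S.F k).chg ⊤ r h0) (l k) (fc (Setoid.ker f))) e1
  · have e1 : ((s.lf i).Y.chg S.tr r h0).cellv c k = (s.lf i).Y.cellv (r * c) k := cellv_chg (s.lf i).Y r h0 c k
    exact congrArg (fun f => FLab.leak (F := (S.F k).chg ⊤ r h0) (l k) (fc ((s.lf i).La k ⊓ Setoid.ker f))) e1

/-- LABELS OF THE TRUNCATION: no leak at the cell of level `r` of the point and at the windows `r c` -/
theorem MSys.DMc_trn_iff {s : MSys S M E ι} {r : ℝ} {h0 : 0 < r} {h1 : r ≤ 1} {c : ℝ}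
    {l : Lab (S.chg S.tr r h0)} : (s.trn r h0 h1).DMc c l ↔ (untL l).DMf (s.cndt r c) := by
  constructor
  · intro h i
    have h2 := nul_trn.mp (h i)
    have e1 : (fun k => ((untL l) k).leak (s.cndt r c i k)) = fun k => (l k).leak ((s.trn r h0 h1).cnd c i k) :=
      funext fun k => (s.trn_leak c l i k).symm
    rw [e1]
    exact h2
  · intro h i
    apply nul_trn.mpr
    have e1 : (fun k => (l k).leak ((s.trn r h0 h1).cnd c i k)) = fun k => ((untL l) k).leak (s.cndt r c i k) :=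
      funext fun k => s.trn_leak c l i k
    rw [e1]
    exact h i

/-- labels of the truncation are labels of the system -/
theorem MSys.DMc.of_trn {s : MSys S M E ι} {r : ℝ} {h0 : 0 < r} {h1 : r ≤ 1} {c c' : ℝ} (hc : r * c ≤ c')
    {l : Lab (S.chg S.tr r h0)} (h : (s.trn r h0 h1).DMc c l) : s.DMc c' (untL l) :=
  Lab.DMf.mono (MSys.DMc_trn_iff.mp h) fun i => ⟨i, s.cndt_le h1 hc i⟩

theorem untL_tnL {r : ℝ} (h0 : 0 < r) (l : Lab S) : untL (tnL r h0 l) = l := by
  funext k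
  show untF r h0 (tnF r h0 (l k)) = l k
  unfold untF tnF
  have e1 : (l k).T.n = (S.F k).n := (l k).hn
  rcases hl : l k with ⟨T, p, hn, V⟩
  rcases T with ⟨Ω, ft, μ, nn, ms, Z, n, pos⟩
  simp only at hn
  subst hn
  rfl

/-- labels of the system with smaller leaks are labels of the truncation -/
theorem MSys.DMc_tnL {s : MSys S M E ι} {r : ℝ} {h0 : 0 < r} {h1 : r ≤ 1} {c : ℝ} {l : Lab S}
    (h : l.DMf (s.cndt r c)) : (s.trn r h0 h1).DMc c (tnL r h0 l) := by
  rw [MSys.DMc_trn_iff, untL_tnL]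
  exact h

/-- the conditions of the truncation are maximal for the maximal labels -/
theorem MSys.IsKap_trn_iff {s : MSys S M E ι} {r : ℝ} {h0 : 0 < r} {h1 : r ≤ 1} {c : ℝ}
    {l : Lab (S.chg S.tr r h0)} : (s.trn r h0 h1).IsKap c l ↔ (untL l).IsMaxf (s.cndt r c) := by
  have hub : ∀ {l : Lab (S.chg S.tr r h0)}, (s.trn r h0 h1).DMc c l →
      UB (fun k => (l k).info / ((S.chg S.tr r h0).F k).n) := fun h =>
    Lab.DMf.ub h (i := none) (pcd_Bd (s.trn r h0 h1).Q)
  constructor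
  · intro h
    refine ⟨MSys.DMc_trn_iff.mp h.1, fun l' hl' => ?_⟩
    have h2 := MSys.DMc_tnL (h0 := h0) (h1 := h1) hl'
    have h3 := h.2 _ h2
    have h4 := Pool.Agent.Helper52.SL.untL_info _ (hub h2)
    rw [untL_tnL] at h4
    rw [h4, Pool.Agent.Helper52.SL.untL_info _ (hub h.1)]
    exact mul_le_mul_of_nonneg_left h3 h0.le
  · intro h
    have h1' : (s.trn r h0 h1).DMc c l := MSys.DMc_trn_iff.mpr h.1
    refine ⟨h1', fun l' hl' => ?_⟩
    have h2 := h.2 _ (MSys.DMc_trn_iff.mp hl')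
    rw [Pool.Agent.Helper52.SL.untL_info _ (hub h1'), Pool.Agent.Helper52.SL.untL_info _ (hub hl')] at h2
    exact le_of_mul_le_mul_left h2 h0

/-- truncations of connected systems are connected -/
theorem MSys.Con.trn {s : MSys S M E ι} {r : ℝ} {h0 : 0 < r} {h1 : r ≤ 1} {c c' : ℝ} (hc : r * c ≤ c')
    (h : s.Con c') : (s.trn r h0 h1).Con c := by
  intro l hl
  have h2 := h _ (MSys.DMc.of_trn hc hl)
  exact nul_trn.mpr h2

end

end Pool.Agent.Helper84.MT
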