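import Pool.Agent.Helper81.MT.Img
import Pool.Agent.Helper81.MT.Trn

/-! MULTI-TYPE LAYER: a partition without leaks is put into the base. -/

set_option autoImplicit false

namespace Pool.Agent.Helper40.EL

open Finset Filter Topology Pool.Agent.Helper69.RK Pool.Agent.Helper31.EC

noncomputable section

/-- a partition of the space as a label -/
def Lab.ofZ {S : Sp} (Z : ∀ k, Setoid (S.F k).Ω) : Lab S :=
  fun k => ⟨(FLab.triv (S.F k)).T, (FLab.triv (S.F k)).p, (FLab.triv (S.F k)).hn, Z k⟩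

variable {S : Sp} {ι : Type} (Z : ∀ k, Setoid (S.F k).Ω)

/-- the leak of a partition is its entropy given the condition -/
theorem Lab.ofZ_leak (A : Part S) (k : ℕ) : ((Lab.ofZ Z) k).leak (A k) = h (fc (Z k)) (A k) := by
  have key : ∀ {L : Type} [PM L] (v o a : L), v ≤ o → I v o a = Pool.Agent.Helper31.EC.h v a := by
    intro L _ v o a hvo
    rw [I_eq, h_zero (hvo.trans le_sup_left), sub_zero]
  have h1 : ((Lab.ofZ Z) k).leak (A k) = Pool.Agent.Helper31.EC.h ((FLab.triv (S.F k)).p.map (fc (Z k)))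
      ((FLab.triv (S.F k)).p.map (A k)) := key _ _ _ ((FLab.triv (S.F k)).p.map_le_top (fc (Z k)))
  rw [h1, FPj.h_map]

theorem Lab.ofZ_DMf {A : ι → Part S} : (Lab.ofZ Z).DMf A ↔ ∀ i, PLe (fun k => fc (Z k)) (A i) := by
  have e1 : ∀ i, (fun k => ((Lab.ofZ Z) k).leak (A i k)) = fun k => h (fc (Z k)) (A i k) :=
    fun i => funext fun k => Lab.ofZ_leak Z (A i) k
  constructor
  · intro hd i
    have h1 := hd i
    rw [e1] at h1
    exact h1
  · intro hd i
    rw [e1]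
    exact hd i

/-- a label of the space as a label of the space with a finer base -/
def FLab.bs {F : FSp} (Z : Setoid F.Ω) (y : FLab F) : FLab (F.chg Z 1 one_pos) where
  T := y.T.chg (Setoid.comap y.p.π Z) 1 one_pos
  p :=
    { π := y.p.π
      law := y.p.law
      hZ := fun ω ω' a b => ⟨fun g => ⟨g.1, (y.p.hZ ω ω' a b).1 g.2⟩, fun g => ⟨g.1, (y.p.hZ ω ω' a b).2 g.2⟩⟩ }
  hn := by
    show 1 * y.T.n = 1 * F.n
    rw [y.hn]
  V := y.V

theorem FLab.bs_leak {F : FSp} (Z : Setoid F.Ω) (y : FLab F) (A : Setoid F.Ω) :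
    (y.bs Z).leak (fc (F := F.chg Z 1 one_pos) A) ≤ y.leak (fc A) := by
  have h1 := (frb y.T (Setoid.comap y.p.π Z) 1 one_pos).I_map y.v y.p.top (y.p.map (fc A))
  have h2 : (y.bs Z).leak (fc (F := F.chg Z 1 one_pos) A) = I ((frb y.T (Setoid.comap y.p.π Z) 1 one_pos).map y.v)
    ((frb y.T (Setoid.comap y.p.π Z) 1 one_pos).map y.p.top)
    ((frb y.T (Setoid.comap y.p.π Z) 1 one_pos).map (y.p.map (fc A))) := rfl
  rw [h2, h1]
  apply leak_cond le_sup_left
  apply sup_le (y.p.map_le_top _)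
  exact y.p.map_le_top (fc Z)

/-- labels of the space as labels of the space with a finer base -/
def Lab.bs (y : Lab S) : Lab (S.chg Z 1 one_pos) := fun k => (y k).bs (Z k)

/-- conditions in the space with a finer base -/
def Part.bs (A : Part S) : Part (S.chg Z 1 one_pos) := fun k => (frb (S.F k) (Z k) 1 one_pos).map (A k)

theorem Part.bs_fc (A : ∀ k, Setoid (S.F k).Ω) (k : ℕ) :
    Part.bs Z (fun k => fc (A k)) k = fc (F := (S.F k).chg (Z k) 1 one_pos) (A k) := rfl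

theorem Lab.DMf.bs {A : ι → Part S} {y : Lab S} (h : y.DMf A) : (y.bs Z).DMf (fun i => Part.bs Z (A i)) := by
  intro i
  have h1 : Tendsto (fun k => (y k).leak (A i k) / (1 * (S.F k).n)) UF (𝓝 0) := by
    simp_rw [one_mul]
    exact h i
  refine squeeze_zero (fun k => div_nonneg (FLab.leak_nonneg _ _) ((S.chg Z 1 one_pos).F k).pos.le) (fun k => ?_) h1
  apply div_le_div_of_nonneg_right _ ((S.chg Z 1 one_pos).F k).pos.le
  show ((y k).bs (Z k)).leak ((frb (S.F k) (Z k) 1 one_pos).map (A i k)) ≤ _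
  induction A i k using fc_ind with | _ B
  exact FLab.bs_leak (Z k) (y k) B

/-- labels over the partition as labels of the space -/
def Lab.bsc (l2 : Lab (S.chg Z 1 one_pos)) : Lab S := Lab.comp (Lab.ofZ Z) 1 one_pos l2

theorem Lab.bs_info (y : Lab S) (k : ℕ) : (y k).info ≤ ((Lab.bsc Z (y.bs Z)) k).info := by
  set w := (Lab.bsc Z (y.bs Z)) k with hw
  set q : FPj w.T (y k).T :=
    { π := fun ω => ω
      law := push_id (y k).T.μ
      hZ := fun ω ω' a b => ((y k).p.hZ ω ω' a b).symm } with hq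
  have h1 : w.v = q.map (y k).v ⊔ q.map ((y k).p.map (fc (Z k))) := by
    have e1 : w.v = q.map ((y k).p.map (fc (Z k))) ⊔ q.map (y k).v := rfl
    rw [e1, sup_comm]
  have h2 : w.p.top = q.map (y k).p.top := rfl
  show (y k).info ≤ I w.v w.p.top ⊥
  rw [h1, h2, ← q.map_bot, ← q.map_sup, q.I_map]
  exact I_mono_left (le_sup_left.trans le_sup_left)

variable {Z}

theorem Lab.up_ofZ (A : Part S) : (Lab.ofZ Z).up 1 one_pos A = Part.bs Z A := by
  funext k
  show (frb (S.F k) (Z k) 1 one_pos).map ((FLab.triv (S.F k)).p.map (A k)) = (frb (S.F k) (Z k) 1 one_pos).map (A k)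
  induction A k using fc_ind
  rfl

theorem Lab.DMf.bsc {A : ι → Part S} (hZ : (Lab.ofZ Z).DMf A) {l2 : Lab (S.chg Z 1 one_pos)}
    (h2 : l2.DMf (fun i => Part.bs Z (A i))) : (Lab.bsc Z l2).DMf A := by
  have e1 : (fun i => Part.bs Z (A i)) = fun i => (Lab.ofZ Z).up 1 one_pos (A i) :=
    funext fun i => (Lab.up_ofZ (A i)).symm
  rw [e1] at h2
  exact Lab.DMf.comp hZ h2

/-- maximal labels over a partition without leaks give maximal labels of the space -/
theorem Lab.IsMaxf.bsc [Countable ι] {A : ι → Part S} (hZ : (Lab.ofZ Z).DMf A) {l2 : Lab (S.chg Z 1 one_pos)}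
    (h2 : l2.IsMaxf (fun i => Part.bs Z (A i))) {i₀ : ι} (hA : (A i₀).Bd) : (Lab.bsc Z l2).IsMaxf A := by
  have e1 : (fun i => Part.bs Z (A i)) = fun i => (Lab.ofZ Z).up 1 one_pos (A i) :=
    funext fun i => (Lab.up_ofZ (A i)).symm
  rw [e1] at h2
  refine Lab.IsMaxf.comp (l := Lab.ofZ Z) (c := 1) (hc := one_pos) hZ h2 hA fun y hy => ?_
  refine ⟨y.bs Z, ?_, ?_⟩
  · have h3 := hy.bs Z
    rw [e1] at h3
    exact h3
  · apply ul_mono (hy.ub hA)
    · have h3 := hy.bs Z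
      exact (Lab.DMf.bsc hZ h3).ub hA
    · exact Eventually.of_forall fun k => div_le_div_of_nonneg_right (Lab.bs_info Z y k) (S.F k).pos.le

/-- maximal labels of the space are maximal over a partition without leaks -/
theorem Lab.IsMaxf.bs {A : ι → Part S} (hZ : (Lab.ofZ Z).DMf A) {y : Lab S} (h : y.IsMaxf A) {i₀ : ι}
    (hA : (A i₀).Bd) : (y.bs Z).IsMaxf (fun i => Part.bs Z (A i)) := by
  have e1 : (fun i => Part.bs Z (A i)) = fun i => (Lab.ofZ Z).up 1 one_pos (A i) :=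
    funext fun i => (Lab.up_ofZ (A i)).symm
  have h3 := h.1.bs Z
  have h4 := Lab.DMf.bsc hZ h3
  have h5 : (Lab.bsc Z (y.bs Z)).IsMaxf A := by
    refine ⟨h4, fun l' hl' => (h.2 l' hl').trans ?_⟩
    apply ul_mono (h.1.ub hA) (h4.ub hA)
    exact Eventually.of_forall fun k => div_le_div_of_nonneg_right (Lab.bs_info Z y k) (S.F k).pos.le
  rw [e1] at h3 ⊢
  exact Lab.IsMaxf.ovr (l := Lab.ofZ Z) (c := 1) (hc := one_pos) h5 hZ h3 hA

/-- connected families stay connected over a partition without leaks -/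
theorem Lab.Conf.bs {A : ι → Part S} (hZ : (Lab.ofZ Z).DMf A) (h : Lab.Conf A) {i₀ : ι} (hA : (A i₀).Bd) :
    Lab.Conf (fun i => Part.bs Z (A i)) := by
  have h1 : (Lab.ofZ Z).IsMaxf A := by
    refine ⟨hZ, fun l' hl' => ?_⟩
    rw [h.info hl', h.info hZ]
  have h2 := Lab.IsMaxf.conf (c := 1) (hc := one_pos) h1 hA
  have e1 : (fun i => Part.bs Z (A i)) = fun i => (Lab.ofZ Z).up 1 one_pos (A i) :=
    funext fun i => (Lab.up_ofZ (A i)).symm
  rw [e1]
  exact h2

end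

end Pool.Agent.Helper40.EL

namespace Pool.Agent.Helper84.MT

open Finset Filter Topology Matrix Pool.Agent.Helper69.RK Pool.Agent.Helper31.EC Pool.Agent.Helper31.EC.Sp
open Pool.Agent.Helper40.EL Pool.Agent.Helper89.LX Pool.Agent.Helper3.LF

noncomputable section

variable {S T : Sp} {M : ℕ} {E : ℕ → ℕ} {ι : Type}

theorem cellv_bas {q : ℕ} (Z : ∀ k, Setoid (S.F k).Ω) (y : S.VV q) (u : ℝ) (k : ℕ) :
    (y.chg Z 1 one_pos).cellv u k = y.cellv u k := by
  unfold VV.cellv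
  rw [chg_dl, one_mul]
  rfl

/-- a type of leaves over a finer base -/
def Leaf.bas {Q : S.VV M} (l : Leaf S Q E) (Z : ∀ k, Setoid (S.F k).Ω)
    (hZ : PLe (fun k => fc (Z k)) (fun k => fc (l.La k))) : Leaf (S.chg Z 1 one_pos) (Q.chg Z 1 one_pos) E where
  e := l.e
  he := l.he
  La := l.La
  Y := l.Y.chg Z 1 one_pos
  F := l.F
  fn := by
    filter_upwards [l.fn] with k hk ω ω' a b c d
    exact hk ω ω' a b c.2 d
  bd := by
    obtain ⟨K, hK, hb⟩ := l.bd
    exact ⟨K, chg_sub Z 1 one_pos hK, hb⟩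
  al := l.al
  alg := l.alg
  crF := l.crF
  seg := by
    intro D
    obtain ⟨K, hK, hb⟩ := l.seg D
    exact ⟨K, chg_sub Z 1 one_pos hK, hb⟩
  pt := by
    obtain ⟨K, hK, hb⟩ := l.pt
    refine ⟨K, chg_sub Z 1 one_pos hK, ?_⟩
    filter_upwards [hb] with k hk ω hω i
    rw [chg_dl, mul_one]
    exact hk ω hω i
  full := by
    have e1 : ∀ k, h (fc (F := (S.F k).chg (Z k) 1 one_pos) (Setoid.ker ((l.Y.chg Z 1 one_pos).cellv 1 k)))
        (fc (l.La k)) = h (fc (Setoid.ker (l.Y.cellv 1 k))) (fc (l.La k) ⊔ fc (Z k)) := by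
      intro k
      have h1 := (frb (S.F k) (Z k) 1 one_pos).h_map (fc (Setoid.ker (l.Y.cellv 1 k))) (fc (l.La k))
      exact (congrArg (fun f => h (fc (F := (S.F k).chg (Z k) 1 one_pos) (Setoid.ker f)) (fc (l.La k)))
        (cellv_bas Z l.Y 1 k)).trans h1
    have h2 : Tendsto (fun k => h (fc (Setoid.ker (l.Y.cellv 1 k))) (fc (l.La k)) / (S.F k).n -
        h (fc (Z k)) (fc (l.La k)) / (S.F k).n) UF (𝓝 (l.e - 0)) := l.full.sub hZ
    rw [sub_zero] at h2
    refine tendsto_of_tendsto_of_tendsto_of_le_of_le h2 l.full (fun k => ?_) (fun k => ?_)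
    · show _ ≤ h (fc (F := (S.F k).chg (Z k) 1 one_pos) (Setoid.ker ((l.Y.chg Z 1 one_pos).cellv 1 k)))
        (fc (l.La k)) / (1 * (S.F k).n)
      rw [one_mul]
      refine (le_of_eq (sub_div _ _ _).symm).trans (div_le_div_of_nonneg_right ?_ (S.F k).pos.le)
      refine le_of_le_of_eq ?_ (e1 k).symm
      have h3 := h_triangle (fc (Setoid.ker (l.Y.cellv 1 k))) (fc (Z k)) (fc (l.La k))
      rw [sup_comm] at h3
      linarith
    · show h (fc (F := (S.F k).chg (Z k) 1 one_pos) (Setoid.ker ((l.Y.chg Z 1 one_pos).cellv 1 k)))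
        (fc (l.La k)) / (1 * (S.F k).n) ≤ _
      rw [one_mul]
      apply div_le_div_of_nonneg_right _ (S.F k).pos.le
      exact le_of_eq_of_le (e1 k) (h_anti le_sup_left)

/-- a system of leaves over a finer base -/
def MSys.bas (s : MSys S M E ι) (Z : ∀ k, Setoid (S.F k).Ω)
    (hZ : ∀ i, PLe (fun k => fc (Z k)) (fun k => fc ((s.lf i).La k))) : MSys (S.chg Z 1 one_pos) M E ι :=
  ⟨s.Q.chg Z 1 one_pos, fun i => (s.lf i).bas Z (hZ i)⟩

theorem MSys.cnd_bas (s : MSys S M E ι) (Z : ∀ k, Setoid (S.F k).Ω)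
    (hZ : ∀ i, PLe (fun k => fc (Z k)) (fun k => fc ((s.lf i).La k))) (c : ℝ) :
    (s.bas Z hZ).cnd c = fun i => Part.bs Z (s.cnd c i) := by
  funext i k
  rcases i with _ | i
  · exact congrArg (fun f => fc (F := (S.F k).chg (Z k) 1 one_pos) (Setoid.ker f)) (cellv_bas Z s.Q 1 k)
  · exact congrArg (fun f => fc (F := (S.F k).chg (Z k) 1 one_pos) ((s.lf i).La k ⊓ Setoid.ker f))
      (cellv_bas Z (s.lf i).Y c k)

/-- a partition without leaks: a function of all leaves and of the point -/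
theorem MSys.DMc_ofZ {s : MSys S M E ι} {Z : ∀ k, Setoid (S.F k).Ω}
    (hZ : ∀ i, PLe (fun k => fc (Z k)) (fun k => fc ((s.lf i).La k))) (hQ : PLe (fun k => fc (Z k)) (pcd s.Q))
    (c : ℝ) : s.DMc c (Lab.ofZ Z) := by
  unfold MSys.DMc
  rw [Lab.ofZ_DMf]
  intro i
  rcases i with _ | i
  · exact hQ
  · refine (hZ i).trans (PLe_of_le fun k => ?_)
    show fc ((s.lf i).La k) ≤ fc ((s.lf i).La k) ⊔ fc (Setoid.ker ((s.lf i).Y.cellv c k))
    exact le_sup_left

variable {s : MSys S M E ι} {Z : ∀ k, Setoid (S.F k).Ω}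
  {hZ : ∀ i, PLe (fun k => fc (Z k)) (fun k => fc ((s.lf i).La k))} {c : ℝ}

theorem MSys.DMc.bsc (hQ : PLe (fun k => fc (Z k)) (pcd s.Q)) {l2 : Lab (S.chg Z 1 one_pos)}
    (h : (s.bas Z hZ).DMc c l2) : s.DMc c (Lab.bsc Z l2) := by
  unfold MSys.DMc at h
  rw [MSys.cnd_bas] at h
  exact Lab.DMf.bsc (MSys.DMc_ofZ hZ hQ c) h

theorem MSys.DMc.bs {y : Lab S} (h : s.DMc c y) : (s.bas Z hZ).DMc c (y.bs Z) := by
  unfold MSys.DMc
  rw [MSys.cnd_bas]
  exact Lab.DMf.bs Z h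

theorem MSys.IsKap.bsc [Countable ι] (hQ : PLe (fun k => fc (Z k)) (pcd s.Q)) {l2 : Lab (S.chg Z 1 one_pos)}
    (h : (s.bas Z hZ).IsKap c l2) : s.IsKap c (Lab.bsc Z l2) := by
  unfold MSys.IsKap at h
  rw [MSys.cnd_bas] at h
  exact Lab.IsMaxf.bsc (MSys.DMc_ofZ hZ hQ c) h (i₀ := none) (pcd_Bd s.Q)

theorem MSys.IsKap.bs (hQ : PLe (fun k => fc (Z k)) (pcd s.Q)) {y : Lab S} (h : s.IsKap c y) :
    (s.bas Z hZ).IsKap c (y.bs Z) := by
  unfold MSys.IsKap
  rw [MSys.cnd_bas]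
  exact Lab.IsMaxf.bs (MSys.DMc_ofZ hZ hQ c) h (i₀ := none) (pcd_Bd s.Q)

theorem MSys.Con.bs (hQ : PLe (fun k => fc (Z k)) (pcd s.Q)) (h : s.Con c) : (s.bas Z hZ).Con c := by
  unfold MSys.Con
  rw [MSys.cnd_bas]
  exact Lab.Conf.bs (MSys.DMc_ofZ hZ hQ c) h (i₀ := none) (pcd_Bd s.Q)

end

end Pool.Agent.Helper84.MT
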