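import Pool.Agent.Helper84.MT.Pul
import Pool.Agent.Helper81.MI.Pol

/-! MULTI-TYPE LAYER: images of systems of leaves under polynomial maps which are known to the base, with tame
coefficients. -/

set_option autoImplicit false

namespace Pool.Agent.Helper84.MT

open Finset Filter Topology Matrix Pool.Agent.Helper69.RK Pool.Agent.Helper31.EC Pool.Agent.Helper31.EC.Sp
open Pool.Agent.Helper40.EL Pool.Agent.Helper89.LX Pool.Agent.Helper3.LF

noncomputable section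

/-- A POLYNOMIAL MAP of degree at most `κ` from `R ^ M` to `R ^ M'`, known to the base, with tame coefficients -/
structure PMap (S : Sp) (M M' κ : ℕ) where
  G : ∀ k, (S.F k).Ω → Fin M' → MvPolynomial (Fin M) ℝ
  deg : ∀ k ω i, (G k ω i).totalDegree ≤ κ
  fn : ∀ᶠ k in UF, ∀ ω ω', (S.F k).μ ω ≠ 0 → (S.F k).μ ω' ≠ 0 → (S.F k).Z ω ω' → G k ω = G k ω'
  bd : ∃ K : ℕ → ℝ, S.Sub K ∧ ∀ᶠ k in UF, ∀ ω, (S.F k).μ ω ≠ 0 → ∀ i a, |(G k ω i).coeff a| ≤ K k

variable {S T : Sp} {M M' M'' κ κ' : ℕ} {E E' E'' : ℕ → ℕ} {ι : Type}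

namespace PMap

/-- the value of the map at a point -/
def ev (P : PMap S M M' κ) (k : ℕ) (ω : (S.F k).Ω) (x : Fin M → ℝ) : Fin M' → ℝ :=
  fun i => MvPolynomial.eval x (P.G k ω i)

/-- bound of the values on bounded sets -/
theorem ev_bd (P : PMap S M M' κ) {R : ℕ → ℝ} (hR : S.Sub R) :
    ∃ K : ℕ → ℝ, S.Sub K ∧ ∀ᶠ k in UF, ∀ ω, (S.F k).μ ω ≠ 0 → ∀ x : Fin M → ℝ, (∀ i, |x i| ≤ R k) →
      ∀ j, |P.ev k ω x j| ≤ K k := by
  obtain ⟨L, hL, hb⟩ := P.bd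
  refine ⟨fun k => ((κ : ℝ) + 1) ^ M * (L k * (R k + 1) ^ κ), ?_, ?_⟩
  · have h0 : (0 : ℝ) ≤ ((κ : ℝ) + 1) ^ M := by positivity
    exact (S.Sub_const h0).mul (hL.mul (Sub_pow' (hR.add (S.Sub_const zero_le_one)) _))
  · filter_upwards [hb, hL.1, hR.1] with k h1 hL0 hR0 ω hω x hx j
    exact eval_le_of_coeff (P.G k ω j) (P.deg k ω j) (L k) (R k + 1) hL0 (by linarith) (h1 ω hω j) x
      (fun i => (hx i).trans (by linarith))

/-- Lipschitz bound on bounded sets -/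
theorem ev_lip (P : PMap S M M' κ) {R : ℕ → ℝ} (hR : S.Sub R) :
    ∃ K : ℕ → ℝ, S.Sub K ∧ ∀ᶠ k in UF, ∀ ω, (S.F k).μ ω ≠ 0 → ∀ x y : Fin M → ℝ, (∀ i, |x i| ≤ R k) →
      (∀ i, |y i| ≤ R k) → ∀ δ : ℝ, 0 ≤ δ → (∀ i, |x i - y i| ≤ δ) →
      ∀ j, |P.ev k ω x j - P.ev k ω y j| ≤ K k * δ := by
  obtain ⟨L, hL, hb⟩ := P.bd
  refine ⟨fun k => ((κ : ℝ) + 1) ^ M * (L k * (κ * (R k + 1) ^ κ)), ?_, ?_⟩
  · have h0 : (0 : ℝ) ≤ ((κ : ℝ) + 1) ^ M := by positivity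
    exact (S.Sub_const h0).mul (hL.mul ((S.Sub_const (Nat.cast_nonneg κ)).mul
      (Sub_pow' (hR.add (S.Sub_const zero_le_one)) _)))
  · filter_upwards [hb, hL.1, hR.1] with k h1 hL0 hR0 ω hω x y hx hy δ hδ hd j
    have h2 := Pool.Agent.Helper81.MI.eval_sub_le (P.G k ω j) (P.deg k ω j) x y (R k + 1) (L k) δ (by linarith) hL0 hδ
      (fun i => (hx i).trans (by linarith)) (fun i => (hy i).trans (by linarith)) hd (h1 ω hω j)
    refine h2.trans (le_of_eq ?_)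
    ring

/-- the image of a vector -/
def val (P : PMap S M M' κ) (Q : S.VV M) : S.VV M' where
  v := fun k ω => P.ev k ω (Q.v k ω)
  bd := by
    obtain ⟨R, hR, hQ⟩ := Q.bd
    obtain ⟨K, hK, hb⟩ := P.ev_bd hR
    refine ⟨K, hK, ?_⟩
    filter_upwards [hQ, hb] with k h1 h2 ω hω i
    exact h2 ω hω _ (h1 ω hω) i

/-- the digits of the image are known to the digits of the vector -/
theorem val_dg_le (P : PMap S M M' κ) (Q : S.VV M) (r : ℝ) : (P.val Q).dg r ≤ Q.dg r := by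
  obtain ⟨R, hR, hQ⟩ := Q.bd
  obtain ⟨K, hK, hb⟩ := P.ev_lip hR
  apply VV.dg_le_dg _ _ r r (fun _ _ => True) Typ_true K hK
  filter_upwards [hQ, hb, P.fn] with k h1 h2 h3 ω ω' a b _ _ hZ hd j
  show |P.ev k ω (Q.v k ω) j - P.ev k ω' (Q.v k ω') j| ≤ _
  have e1 : P.ev k ω' (Q.v k ω') j = P.ev k ω (Q.v k ω') j := by
    unfold PMap.ev
    rw [h3 ω ω' a b hZ]
  rw [e1]
  exact h2 ω a _ _ (h1 ω a) (h1 ω' b) _ (S.dl_pos r k).le hd j

theorem val_PLe (P : PMap S M M' κ) (Q : S.VV M) : PLe (pcd (P.val Q)) (pcd Q) := by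
  have h1 : pcd (P.val Q) = rpI ((P.val Q).bdd 1).toInf := rfl
  have h2 : pcd Q = rpI (Q.bdd 1).toInf := rfl
  rw [h1, h2, PLe_rpI]
  have h3 := P.val_dg_le Q 1
  have e1 : (P.val Q).dg 1 = cl ((P.val Q).bdd 1).toInf := io_eq ((P.val Q).bdd 1)
  have e2 : Q.dg 1 = cl (Q.bdd 1).toInf := io_eq (Q.bdd 1)
  rwa [e1, e2] at h3

/-- the map in an extension -/
def pull (p : Pj T S) (P : PMap S M M' κ) : PMap T M M' κ where
  G := fun k ω => P.G k (p.π k ω)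
  deg := fun k ω i => P.deg k (p.π k ω) i
  fn := by
    filter_upwards [P.fn] with k hk ω ω' h1 h2 h3
    exact hk _ _ (p.supp k ω h1) (p.supp k ω' h2) ((p.hZ k ω ω' h1 h2).1 h3)
  bd := by
    obtain ⟨K, hK, hb⟩ := P.bd
    refine ⟨K, p.sub hK, ?_⟩
    filter_upwards [hb] with k hk ω hω
    exact hk _ (p.supp k ω hω)

/-- the map on an event of an extension -/
def im (p : Pj T S) (A : ∀ k, (T.F k).Ω → Prop) (P : PMap S M M' κ) : PMap (Sp.im p A) M M' κ where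
  G := P.G
  deg := P.deg
  fn := by
    filter_upwards [P.fn] with k hk ω ω' h1 h2 h3
    exact hk _ _ (FSp.im_supp (p.fp k) (A k) ω h1) (FSp.im_supp (p.fp k) (A k) ω' h2) h3
  bd := by
    obtain ⟨K, hK, hb⟩ := P.bd
    refine ⟨K, hK, ?_⟩
    filter_upwards [hb] with k hk ω hω
    exact hk _ (FSp.im_supp (p.fp k) (A k) ω hω)

/-- the map in a space with a finer base -/
def chg (Z : ∀ k, Setoid (S.F k).Ω) (c : ℝ) (hc : 0 < c) (P : PMap S M M' κ) : PMap (S.chg Z c hc) M M' κ where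
  G := P.G
  deg := P.deg
  fn := by
    filter_upwards [P.fn] with k hk ω ω' h1 h2 h3
    exact hk _ _ h1 h2 h3.2
  bd := by
    obtain ⟨K, hK, hb⟩ := P.bd
    exact ⟨K, chg_sub Z c hc hK, hb⟩

theorem val_pull (p : Pj T S) (P : PMap S M M' κ) (Q : S.VV M) : (P.pull p).val (p.vv Q) = p.vv (P.val Q) := rfl

theorem val_im (p : Pj T S) (A : ∀ k, (T.F k).Ω → Prop) (P : PMap S M M' κ) (Q : S.VV M) :
    (P.im p A).val (Q.im p A) = (P.val Q).im p A := rfl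

/-- larger degrees -/
def mono (P : PMap S M M' κ) (h : κ ≤ κ') : PMap S M M' κ' := ⟨P.G, fun k ω i => (P.deg k ω i).trans h, P.fn, P.bd⟩

/-- AFFINE MAPS `x ↦ A x + b` -/
def aff (A : ∀ k, (S.F k).Ω → Matrix (Fin M') (Fin M) ℝ) (b : ∀ k, (S.F k).Ω → Fin M' → ℝ)
    (fn : ∀ᶠ k in UF, ∀ ω ω', (S.F k).μ ω ≠ 0 → (S.F k).μ ω' ≠ 0 → (S.F k).Z ω ω' → A k ω = A k ω' ∧ b k ω = b k ω')
    (bd : ∃ K : ℕ → ℝ, S.Sub K ∧ ∀ᶠ k in UF, ∀ ω, (S.F k).μ ω ≠ 0 → (∀ i j, |A k ω i j| ≤ K k) ∧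
      ∀ i, |b k ω i| ≤ K k) : PMap S M M' 1 where
  G := fun k ω i => (∑ j, MvPolynomial.C (A k ω i j) * MvPolynomial.X j) + MvPolynomial.C (b k ω i)
  deg := by
    intro k ω i
    refine (MvPolynomial.totalDegree_add _ _).trans (max_le ?_ ?_)
    · refine (MvPolynomial.totalDegree_finsetSum _ _).trans (Finset.sup_le fun j _ => ?_)
      refine (MvPolynomial.totalDegree_mul _ _).trans ?_
      rw [MvPolynomial.totalDegree_C, zero_add]
      exact (MvPolynomial.totalDegree_X j).le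
    · rw [MvPolynomial.totalDegree_C]
      exact zero_le_one
  fn := by
    filter_upwards [fn] with k hk ω ω' h1 h2 h3
    obtain ⟨e1, e2⟩ := hk ω ω' h1 h2 h3
    rw [e1, e2]
  bd := by
    classical
    obtain ⟨K, hK, hb⟩ := bd
    refine ⟨fun k => M * K k + K k, ((S.Sub_const (Nat.cast_nonneg M)).mul hK).add hK, ?_⟩
    filter_upwards [hb, hK.1] with k h1 hK0 ω hω i a
    obtain ⟨h2, h3⟩ := h1 ω hω
    rw [MvPolynomial.coeff_add, MvPolynomial.coeff_sum]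
    refine (abs_add_le _ _).trans (add_le_add ?_ ?_)
    · refine (Finset.abs_sum_le_sum_abs _ _).trans ?_
      calc ∑ j, |MvPolynomial.coeff a (MvPolynomial.C (A k ω i j) * MvPolynomial.X j)| ≤ ∑ _j : Fin M, K k := by
            apply Finset.sum_le_sum
            intro j _
            rw [MvPolynomial.coeff_C_mul, MvPolynomial.coeff_X, abs_mul]
            refine (mul_le_mul (h2 i j) (?_ : _ ≤ (1 : ℝ)) (abs_nonneg _) hK0).trans (by rw [mul_one])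
            split_ifs <;> simp
        _ = M * K k := by rw [Finset.sum_const, Finset.card_univ, Fintype.card_fin, nsmul_eq_mul]
    · rw [MvPolynomial.coeff_C]
      split_ifs
      · exact h3 i
      · rw [abs_zero]; exact hK0

/-- coordinate maps -/
def coo (S : Sp) (f : Fin M' → Fin M) : PMap S M M' 1 where
  G := fun _ _ i => MvPolynomial.X (f i)
  deg := fun _ _ i => (MvPolynomial.totalDegree_X (f i)).le
  fn := Eventually.of_forall fun _ _ _ _ _ _ => rfl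
  bd := by
    classical
    refine ⟨fun _ => 1, S.Sub_const zero_le_one, Eventually.of_forall fun k ω _ i a => ?_⟩
    rw [MvPolynomial.coeff_X]
    split_ifs <;> simp

theorem coo_ev (f : Fin M' → Fin M) (k : ℕ) (ω : (S.F k).Ω) (x : Fin M → ℝ) :
    (coo S f).ev k ω x = fun i => x (f i) := by
  funext i
  exact MvPolynomial.eval_X (f i)

theorem aff_ev (A : ∀ k, (S.F k).Ω → Matrix (Fin M') (Fin M) ℝ) (b : ∀ k, (S.F k).Ω → Fin M' → ℝ) (fn) (bd) (k : ℕ)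
    (ω : (S.F k).Ω) (x : Fin M → ℝ) : (aff A b fn bd).ev k ω x = (A k ω).mulVec x + b k ω := by
  funext i
  show MvPolynomial.eval x ((∑ j, MvPolynomial.C (A k ω i j) * MvPolynomial.X j) + MvPolynomial.C (b k ω i)) = _
  rw [map_add, map_sum, MvPolynomial.eval_C]
  simp only [map_mul, MvPolynomial.eval_C, MvPolynomial.eval_X]
  rfl

end PMap

/-! ### images of leaves and systems -/

/-- the filtration with the degrees divided by `κ` -/
theorem Alg.scale {e : ℕ} {c : Fin e → ℝ} {al : ℕ → Set ((Fin e → ℝ) → ℝ)} (h : Alg e c al) (hκ : 1 ≤ κ) :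
    Alg e c (fun D => al (κ * D)) where
  const := fun a => by
    show _ ∈ al (κ * 0)
    rw [mul_zero]
    exact h.const a
  add := fun D f g hf hg => h.add _ f g hf hg
  mul := fun D D' f g hf hg => by
    show _ ∈ al (κ * (D + D'))
    rw [mul_add]
    exact h.mul _ _ f g hf hg
  mono := fun D D' hD => h.mono _ _ (Nat.mul_le_mul_left _ hD)
  crd := fun i => h.mono 1 (κ * 1) (by omega) (h.crd i)
  der := fun D f hf i => by
    obtain ⟨g, hg, hd⟩ := h.der _ f hf i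
    refine ⟨g, h.mono _ _ ?_ hg, hd⟩
    rw [mul_add, mul_one]
    exact Nat.add_le_add_left hκ _

/-- larger exponents -/
def Leaf.monoE {Q : S.VV M} (l : Leaf S Q E) (hE : ∀ D, E D ≤ E' D) : Leaf S Q E' where
  e := l.e
  he := l.he.trans (hE 0)
  La := l.La
  Y := l.Y
  F := l.F
  fn := l.fn
  bd := l.bd
  al := l.al
  alg := l.alg
  crF := l.crF
  seg := by
    intro D
    obtain ⟨K, hK, hb⟩ := l.seg D
    refine ⟨K, hK, ?_⟩
    filter_upwards [hb, hK.1] with k hk hK0 ω hω f hf y z hy hz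
    obtain ⟨h1, h2⟩ := hk ω hω f hf y z hy hz
    exact ⟨h1.mono (hE D) hK0 le_rfl, h2⟩
  pt := l.pt
  full := l.full

/-- the image of a type of leaves -/
def Leaf.img {Q : S.VV M} (l : Leaf S Q E) (P : PMap S M M' κ) (hκ : 1 ≤ κ) (hE : ∀ D, E (κ * D) ≤ E' D) :
    Leaf S (P.val Q) E' where
  e := l.e
  he := by
    have h1 := hE 0
    rw [mul_zero] at h1
    exact l.he.trans h1
  La := l.La
  Y := l.Y
  F := fun k ω y => P.ev k ω (l.F k ω y)
  fn := by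
    filter_upwards [l.fn, P.fn] with k hk hk' ω ω' h1 h2 h3 h4
    unfold PMap.ev
    rw [hk ω ω' h1 h2 h3 h4, hk' ω ω' h1 h2 h3]
  bd := by
    obtain ⟨R, hR, hb⟩ := l.bd
    obtain ⟨K, hK, hb'⟩ := P.ev_bd hR
    refine ⟨K, hK, ?_⟩
    filter_upwards [hb, hb'] with k h1 h2 ω hω y hy j
    exact h2 ω hω _ (h1 ω hω y hy) j
  al := fun k ω D => l.al k ω (κ * D)
  alg := by
    filter_upwards [l.alg] with k hk ω hω
    exact (hk ω hω).scale hκ
  crF := by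
    filter_upwards [l.alg, l.crF] with k h1 h2 ω hω j
    have h3 := (h1 ω hω).eval _ (h2 ω hω) (P.G k ω j) (P.deg k ω j)
    rw [one_mul] at h3
    show _ ∈ l.al k ω (κ * 1)
    rw [mul_one]
    exact h3
  seg := by
    intro D
    obtain ⟨K, hK, hb⟩ := l.seg (κ * D)
    refine ⟨K, hK, ?_⟩
    filter_upwards [hb, hK.1] with k hk hK0 ω hω f hf y z hy hz
    obtain ⟨h1, h2⟩ := hk ω hω f hf y z hy hz
    exact ⟨h1.mono (hE D) hK0 le_rfl, h2⟩
  pt := by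
    obtain ⟨K, hK, hb⟩ := l.pt
    obtain ⟨R, hR, hQ⟩ := Q.bd
    obtain ⟨R', hR', hF⟩ := l.bd
    obtain ⟨L, hL, hb'⟩ := P.ev_lip (hR.add hR')
    refine ⟨fun k => L k * K k, hL.mul hK, ?_⟩
    filter_upwards [hb, hQ, hF, hb', hR.1, hR'.1, hK.1] with k h1 h2 h3 h4 hR0 hR0' hK0 ω hω i
    show |P.ev k ω (Q.v k ω) i - P.ev k ω (l.F k ω (l.Y.v k ω)) i| ≤ _
    rw [mul_assoc]
    apply h4 ω hω _ _ _ _ _ (mul_nonneg hK0 (S.dl_pos 1 k).le) (h1 ω hω)
    · intro j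
      exact (h2 ω hω j).trans (by linarith)
    · intro j
      refine (h3 ω hω (l.Y.v k ω) (fun i => ?_) j).trans (by linarith)
      rw [sub_self, abs_zero]
      exact zero_le_one
  full := l.full

/-- THE IMAGE of a system of leaves under a polynomial map -/
def MSys.img (s : MSys S M E ι) (P : PMap S M M' κ) (hκ : 1 ≤ κ) (hE : ∀ D, E (κ * D) ≤ E' D) : MSys S M' E' ι :=
  ⟨P.val s.Q, fun i => (s.lf i).img P hκ hE⟩

theorem lin_img (g κ D : ℕ) : lin g (κ * D) ≤ lin (g * (κ + 1)) D := by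
  unfold lin
  nlinarith [Nat.zero_le (g * D), Nat.zero_le (g * κ), Nat.zero_le g, Nat.zero_le (g * κ * D)]

theorem MSys.win_img (s : MSys S M E ι) (P : PMap S M M' κ) (hκ : 1 ≤ κ) (hE : ∀ D, E (κ * D) ≤ E' D) (c : ℝ) (i : ι) :
    (s.img P hκ hE).cnd c (some i) = s.cnd c (some i) := rfl

theorem MSys.img_pull (p : Pj T S) (s : MSys S M E ι) (P : PMap S M M' κ) (hκ : 1 ≤ κ) (hE : ∀ D, E (κ * D) ≤ E' D) :
    (s.pull p).img (P.pull p) hκ hE = (s.img P hκ hE).pull p := rfl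

theorem MSys.img_im (p : Pj T S) (A : ∀ k, (T.F k).Ω → Prop) (hA : 0 < ul (T.pr A)) (s : MSys S M E ι)
    (P : PMap S M M' κ) (hκ : 1 ≤ κ) (hE : ∀ D, E (κ * D) ≤ E' D) :
    (s.im p A hA).img (P.im p A) hκ hE = (s.img P hκ hE).im p A hA := rfl

theorem MSys.cnd_img (s : MSys S M E ι) (P : PMap S M M' κ) (hκ : 1 ≤ κ) (hE : ∀ D, E (κ * D) ≤ E' D) (c : ℝ) (i : Option ι) :
    PLe ((s.img P hκ hE).cnd c i) (s.cnd c i) := by
  rcases i with _ | i
  · exact P.val_PLe s.Q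
  · exact PLe.refl _

/-- labels of the image are labels of the system -/
theorem MSys.DMc.of_img {s : MSys S M E ι} {P : PMap S M M' κ} {hκ : 1 ≤ κ} {hE : ∀ D, E (κ * D) ≤ E' D} {c : ℝ} {l : Lab S}
    (h : (s.img P hκ hE).DMc c l) : s.DMc c l := Lab.DMf.mono h fun i => ⟨i, s.cnd_img P hκ hE c i⟩

/-- the image of a system has the labels of the system if the point is known to its image -/
theorem MSys.DMc_img_iff {s : MSys S M E ι} {P : PMap S M M' κ} {hκ : 1 ≤ κ} {hE : ∀ D, E (κ * D) ≤ E' D} {c : ℝ} {l : Lab S}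
    (hP : PLe (pcd s.Q) (pcd (P.val s.Q))) : (s.img P hκ hE).DMc c l ↔ s.DMc c l := by
  refine ⟨MSys.DMc.of_img, fun h => Lab.DMf.mono h fun i => ⟨i, ?_⟩⟩
  rcases i with _ | i
  · exact hP
  · exact PLe.refl _

theorem MSys.IsKap_img_iff {s : MSys S M E ι} {P : PMap S M M' κ} {hκ : 1 ≤ κ} {hE : ∀ D, E (κ * D) ≤ E' D} {c : ℝ} {l : Lab S}
    (hP : PLe (pcd s.Q) (pcd (P.val s.Q))) : (s.img P hκ hE).IsKap c l ↔ s.IsKap c l := by
  constructor
  · intro h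
    exact Lab.IsMaxf.congr h (fun i => ⟨i, s.cnd_img P hκ hE c i⟩) fun i => ⟨i, by
      rcases i with _ | i
      · exact hP
      · exact PLe.refl _⟩
  · intro h
    exact Lab.IsMaxf.congr h (fun i => ⟨i, by
      rcases i with _ | i
      · exact hP
      · exact PLe.refl _⟩) fun i => ⟨i, s.cnd_img P hκ hE c i⟩

/-- a polynomial left inverse: the point is known to its image -/
theorem PMap.PLe_of_inv (P : PMap S M M' κ) (R : PMap S M' M κ') (Q : S.VV M)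
    (h : ∀ᶠ k in UF, ∀ ω, (S.F k).μ ω ≠ 0 → R.ev k ω (P.ev k ω (Q.v k ω)) = Q.v k ω) :
    PLe (pcd Q) (pcd (P.val Q)) := by
  have h1 : pcd (P.val Q) = rpI ((P.val Q).bdd 1).toInf := rfl
  have h2 : pcd Q = rpI (Q.bdd 1).toInf := rfl
  rw [h1, h2, PLe_rpI]
  have e1 : (P.val Q).dg 1 = cl ((P.val Q).bdd 1).toInf := io_eq ((P.val Q).bdd 1)
  have e2 : Q.dg 1 = cl (Q.bdd 1).toInf := io_eq (Q.bdd 1)
  rw [← e1, ← e2]
  obtain ⟨L, hL, hQ⟩ := (P.val Q).bd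
  obtain ⟨K, hK, hb⟩ := R.ev_lip hL
  apply VV.dg_le_dg _ _ 1 1 (fun _ _ => True) Typ_true K hK
  filter_upwards [hQ, hb, R.fn, h] with k h1 h2 h3 h4 ω ω' a b _ _ hZ hd j
  rw [← h4 ω a, ← h4 ω' b]
  have e1 : R.ev k ω' (P.ev k ω' (Q.v k ω')) j = R.ev k ω (P.ev k ω' (Q.v k ω')) j := by
    unfold PMap.ev
    rw [h3 ω ω' a b hZ]
  rw [e1]
  exact h2 ω a _ _ (h1 ω a) (h1 ω' b) _ (S.dl_pos 1 k).le hd j

end

end Pool.Agent.Helper84.MT
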