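import Pool.Agent.Helper81.MT.Glu
import Pool.Agent.Helper84.MT.Add
import Pool.Agent.Helper81.MT.Img

/-! MULTI-TYPE LAYER: labels of glued systems, connectedness of glued systems, systems on a typical event. -/

set_option autoImplicit false

namespace Pool.Agent.Helper40.EL

open Finset Filter Topology Pool.Agent.Helper69.RK Pool.Agent.Helper31.EC Pool.Agent.Helper52.KP

noncomputable section

/-- eventual comparison of informations -/
theorem PLe_of_ev {S : Sp} {A B : Part S} (h : ∀ᶠ k in UF, A k ≤ B k) : PLe A B := by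
  unfold PLe Nul
  have h1 : (fun _ : ℕ => (0 : ℝ)) =ᶠ[UF] fun k => Pool.Agent.Helper31.EC.h (A k) (B k) / (S.F k).n := by
    filter_upwards [h] with k hk
    rw [h_zero hk, zero_div]
  exact tendsto_const_nhds.congr' h1

theorem PLe_of_ev_eq {S : Sp} {A B : Part S} (h : ∀ᶠ k in UF, A k = B k) : PLe A B :=
  PLe_of_ev (h.mono fun _ hk => hk.le)

theorem pb_ne_zero {S : Sp} {A : ∀ k, (S.F k).Ω → Prop} (hA : 0 < ul (S.pr A)) :
    ∀ᶠ k in UF, (S.F k).pb (A k) ≠ 0 := by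
  have h1 := ul_tendsto (Sp.UB_pr (S := S) A)
  filter_upwards [h1.eventually (lt_mem_nhds hA)] with k hk
  exact hk.ne'

namespace Lab

variable {S T : Sp} {ι : Type} {C : ι → Part S}

theorem pull_id (C : Part S) : C.pull (Pj.id S) = C := by
  funext k
  show ((Pj.id S).fp k).map (C k) = C k
  induction C k using fc_ind
  rfl

theorem im_id_pull (A : ∀ k, (S.F k).Ω → Prop) (C : Part S) :
    (C.im (Pj.id S) A).pull (Sp.imq (Pj.id S) A) = C.rest A := by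
  have h1 := Part.im_pull (Pj.id S) A C
  rw [pull_id] at h1
  exact h1

/-- labels of an event and of its complement, glued -/
def glueR (A : ∀ k, (S.F k).Ω → Prop) (l₁ : Lab (S.rest A)) (l₂ : Lab (S.rest fun k ω => ¬ A k ω)) : Lab S :=
  Lab.glue (Pj.id S) A (l₁.down (Sp.imq (Pj.id S) A)) (l₂.down (Sp.imq (Pj.id S) fun k ω => ¬ A k ω))

variable {A : ∀ k, (S.F k).Ω → Prop} {l₁ : Lab (S.rest A)} {l₂ : Lab (S.rest fun k ω => ¬ A k ω)}

theorem DMf.down_im (h₁ : l₁.DMf (fun i => (C i).rest A)) :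
    (l₁.down (Sp.imq (Pj.id S) A)).DMf (fun i => (C i).im (Pj.id S) A) := by
  apply DMf.down
  have e1 : (fun i => ((C i).im (Pj.id S) A).pull (Sp.imq (Pj.id S) A)) = fun i => (C i).rest A :=
    funext fun i => im_id_pull A (C i)
  rw [e1]
  exact h₁

theorem DMf.glueR (h₁ : l₁.DMf (fun i => (C i).rest A)) (h₂ : l₂.DMf (fun i => (C i).rest fun k ω => ¬ A k ω)) :
    (Lab.glueR A l₁ l₂).DMf C := DMf.glue (DMf.down_im h₁) (DMf.down_im h₂)

theorem DMf.glueR_info (h₁ : l₁.DMf (fun i => (C i).rest A))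
    (h₂ : l₂.DMf (fun i => (C i).rest fun k ω => ¬ A k ω)) (hA : 0 < ul (S.pr A))
    (hA' : 0 < ul (S.pr fun k ω => ¬ A k ω)) {i : ι} (hC : (C i).Bd) :
    (Lab.glueR A l₁ l₂).info = ul (S.pr A) * l₁.info + (1 - ul (S.pr A)) * l₂.info := by
  have b1 : ((C i).im (Pj.id S) A).Bd := hC.im (Pj.id S) hA
  have b2 : ((C i).im (Pj.id S) fun k ω => ¬ A k ω).Bd := hC.im (Pj.id S) hA'
  have g1 := DMf.down_im h₁
  have g2 := DMf.down_im h₂
  have e1 : (fun i => ((C i).im (Pj.id S) A).pull (Sp.imq (Pj.id S) A)) = fun i => (C i).rest A :=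
    funext fun i => im_id_pull A (C i)
  have e2 : (fun i => ((C i).im (Pj.id S) fun k ω => ¬ A k ω).pull (Sp.imq (Pj.id S) fun k ω => ¬ A k ω)) =
      fun i => (C i).rest fun k ω => ¬ A k ω := funext fun i => im_id_pull _ (C i)
  have i1 : (l₁.down (Sp.imq (Pj.id S) A)).info = l₁.info := by
    have h3 : l₁.DMf (fun i => ((C i).im (Pj.id S) A).pull (Sp.imq (Pj.id S) A)) := by rw [e1]; exact h₁
    exact DMf.info_down (Sp.imq (Pj.id S) A) h3 b1
  have i2 : (l₂.down (Sp.imq (Pj.id S) fun k ω => ¬ A k ω)).info = l₂.info := by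
    have h3 : l₂.DMf (fun i => ((C i).im (Pj.id S) fun k ω => ¬ A k ω).pull
        (Sp.imq (Pj.id S) fun k ω => ¬ A k ω)) := by rw [e2]; exact h₂
    exact DMf.info_down (Sp.imq (Pj.id S) fun k ω => ¬ A k ω) h3 b2
  have h3 := glue_info_eq (p := Pj.id S) (E := A) (l₁ := l₁.down (Sp.imq (Pj.id S) A))
    (l₂ := l₂.down (Sp.imq (Pj.id S) fun k ω => ¬ A k ω)) (g1.ub (i := i) b1) (g2.ub (i := i) b2)
  rw [i1, i2] at h3
  exact h3

theorem Bd_rest {C : Part S} (hC : C.Bd) (hA : 0 < ul (S.pr A)) : (C.rest A).Bd := by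
  rw [← im_id_pull]
  exact (hC.im (Pj.id S) hA).pull _

/-- maximal labels of an event and of its complement give a maximal label -/
theorem IsMaxf.glueR [Countable ι] (h₁ : l₁.IsMaxf (fun i => (C i).rest A))
    (h₂ : l₂.IsMaxf (fun i => (C i).rest fun k ω => ¬ A k ω)) (hA : 0 < ul (S.pr A))
    (hA' : 0 < ul (S.pr fun k ω => ¬ A k ω)) {i : ι} (hC : (C i).Bd) : (Lab.glueR A l₁ l₂).IsMaxf C := by
  refine ⟨DMf.glueR h₁.1 h₂.1, fun l' hl' => ?_⟩
  obtain ⟨κ, hκ⟩ := exists_maxf C hC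
  rw [DMf.glueR_info h₁.1 h₂.1 hA hA' hC]
  exact (hκ.2 _ hl').trans (hκ.split A hA hA' h₁ h₂ hC (Bd_rest hC hA) (Bd_rest hC hA'))

/-- connectedness of the restriction to an event -/
theorem Conf.rest [Countable ι] (h : Conf C) (hA : 0 < ul (S.pr A)) {i : ι} (hC : (C i).Bd) :
    Conf (fun i => (C i).rest A) := by
  have h1 := Conf.im h (Pj.id S) A hA hC
  have hne : Nonempty ι := ⟨i⟩
  have h2 := Conf.pull (Sp.imq (Pj.id S) A) h1
  have e1 : (fun i => ((C i).im (Pj.id S) A).pull (Sp.imq (Pj.id S) A)) = fun i => (C i).rest A :=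
    funext fun i => im_id_pull A (C i)
  rw [e1] at h2
  exact h2

/-- connectedness from the connectedness of an event and of its complement -/
theorem Conf.of_rest [Countable ι] (h₁ : Conf (fun i => (C i).rest A))
    (h₂ : Conf (fun i => (C i).rest fun k ω => ¬ A k ω)) (hA : 0 < ul (S.pr A))
    (hA' : 0 < ul (S.pr fun k ω => ¬ A k ω)) {i : ι} (hC : (C i).Bd) : Conf C := by
  obtain ⟨κ, hκ⟩ := exists_maxf C hC
  obtain ⟨m₁, hm₁⟩ := exists_maxf (fun i => (C i).rest A) (i₀ := i) (Bd_rest hC hA)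
  obtain ⟨m₂, hm₂⟩ := exists_maxf (fun i => (C i).rest fun k ω => ¬ A k ω) (i₀ := i) (Bd_rest hC hA')
  have h3 := hκ.split A hA hA' hm₁ hm₂ hC (Bd_rest hC hA) (Bd_rest hC hA')
  rw [h₁.info hm₁.1, h₂.info hm₂.1, mul_zero, mul_zero, add_zero] at h3
  exact conf_of_info hC fun l hl => (hκ.2 l hl).trans h3

/-- connectedness from the connectedness of a typical event -/
theorem Conf.of_typ [Countable ι] (h₁ : Conf (fun i => (C i).rest A)) (hA : Sp.Typ A) {i : ι} (hC : (C i).Bd)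
    (hC' : ((C i).rest fun k ω => ¬ A k ω).Bd) : Conf C := by
  obtain ⟨κ, hκ⟩ := exists_maxf C hC
  have hp := Sp.ul_pr_typ_pos A hA
  obtain ⟨m, hm⟩ := exists_maxf (fun i => (C i).im (Pj.id S) A) (i₀ := i) (hC.im (Pj.id S) hp)
  have h3 := IsMaxf.info_typ hκ (Pj.id S) A hA hm hC (by rw [pull_id]; exact hC')
  have h4 : Conf (fun i => (C i).im (Pj.id S) A) := by
    apply Conf.down (Sp.imq (Pj.id S) A)
    have e1 : (fun i => ((C i).im (Pj.id S) A).pull (Sp.imq (Pj.id S) A)) = fun i => (C i).rest A :=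
      funext fun i => im_id_pull A (C i)
    rw [e1]
    exact h₁
  have h5 := h4.info hm.1
  rw [h5] at h3
  exact conf_of_info hC fun l hl => (hκ.2 l hl).trans h3.ge

end Lab

end

end Pool.Agent.Helper40.EL

namespace Pool.Agent.Helper84.MT

open Finset Filter Topology Matrix Pool.Agent.Helper69.RK Pool.Agent.Helper31.EC Pool.Agent.Helper31.EC.Sp
open Pool.Agent.Helper40.EL Pool.Agent.Helper89.LX Pool.Agent.Helper3.LF

noncomputable section

variable {S T : Sp} {M : ℕ} {E : ℕ → ℕ} {ι ι' : Type}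

/-- change of the point by the finest resolution -/
def Leaf.congrQ {Q Q' : S.VV M} (l : Leaf S Q E) (hQ : ∃ K : ℕ → ℝ, S.Sub K ∧ ∀ᶠ k in UF, ∀ ω, (S.F k).μ ω ≠ 0 →
    ∀ i, |Q'.v k ω i - Q.v k ω i| ≤ K k * S.dl 1 k) : Leaf S Q' E where
  e := l.e
  he := l.he
  La := l.La
  Y := l.Y
  F := l.F
  fn := l.fn
  bd := l.bd
  al := l.al
  alg := l.alg
  crF := l.crF
  seg := l.seg
  pt := by
    obtain ⟨K, hK, h1⟩ := l.pt
    obtain ⟨L, hL, h2⟩ := hQ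
    refine ⟨fun k => L k + K k, hL.add hK, ?_⟩
    filter_upwards [h1, h2] with k a b ω hω i
    have h3 := a ω hω i
    have h4 := b ω hω i
    have h5 := abs_add_le (Q'.v k ω i - Q.v k ω i) (Q.v k ω i - l.F k ω (l.Y.v k ω) i)
    rw [sub_add_sub_cancel] at h5
    rw [add_mul]
    linarith
  full := l.full

/-- close points are known to each other -/
theorem pcd_congr {Q Q' : S.VV M} (hQ : ∃ K : ℕ → ℝ, S.Sub K ∧ ∀ᶠ k in UF, ∀ ω, (S.F k).μ ω ≠ 0 →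
    ∀ i, |Q'.v k ω i - Q.v k ω i| ≤ K k * S.dl 1 k) : PLe (pcd Q') (pcd Q) := by
  obtain ⟨L, hL, h2⟩ := hQ
  apply PLe_cell Q' 1 _ (fun k => L k + 1 + L k) ((hL.add (S.Sub_const zero_le_one)).add hL)
  filter_upwards [h2] with k hk ω ω' a b _ r i
  have h3 := hk ω a i
  have h4 := hk ω' b i
  have h5 : |Q.v k ω i - Q.v k ω' i| ≤ S.dl 1 k := abs_sub_le_of_floor_eq (S.dl_pos 1 k) (congrFun r i)
  have e1 : Q'.v k ω i - Q'.v k ω' i = (Q'.v k ω i - Q.v k ω i) + (Q.v k ω i - Q.v k ω' i) -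
      (Q'.v k ω' i - Q.v k ω' i) := by ring
  rw [e1]
  have h6 := abs_sub ((Q'.v k ω i - Q.v k ω i) + (Q.v k ω i - Q.v k ω' i)) (Q'.v k ω' i - Q.v k ω' i)
  have h7 := abs_add_le (Q'.v k ω i - Q.v k ω i) (Q.v k ω i - Q.v k ω' i)
  have e2 : (L k + 1 + L k) * S.dl 1 k = L k * S.dl 1 k + S.dl 1 k + L k * S.dl 1 k := by ring
  rw [e2]
  linarith

/-! ### windows of glued leaves -/

theorem LeafD.cast_win {Q : S.VV M} {e e' : ℕ} (he : e = e') (d : LeafD S Q E e) (c : ℝ) (k : ℕ) :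
    (fc ((d.cast he).La k ⊓ Setoid.ker ((d.cast he).Y.cellv c k)) : FL (S.F k)) =
      fc (d.La k ⊓ Setoid.ker (d.Y.cellv c k)) := by
  subst he
  rfl

section
variable {A : ∀ k, (S.F k).Ω → Prop} {Q : S.VV M} {e : ℕ}

theorem LeafD.glue_win_pos (d : LeafD (S.rest A) (Q.rest A) E e)
    (d' : LeafD (S.rest fun k ω => ¬ A k ω) (Q.rest fun k ω => ¬ A k ω) E e) (c : ℝ) {k : ℕ}
    (h0 : (S.F k).pb (A k) ≠ 0) :
    (S.F k).rmap (A k) (fc ((d.glue d').La k ⊓ Setoid.ker ((d.glue d').Y.cellv c k))) =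
      fc (F := (S.F k).rest (A k)) (d.La k ⊓ Setoid.ker (d.Y.cellv c k)) := by
  apply fc_rest_eq h0
  intro ω ω' a b
  have h1 : (glS (A k) (d.La k) (d'.La k)) ω ω' ↔ (d.La k) ω ω' := glS_pos a b
  have h2 : (glV d.Y d'.Y).cellv c k ω = (glV d.Y d'.Y).cellv c k ω' ↔ d.Y.cellv c k ω = d.Y.cellv c k ω' := by
    rw [glV_cellv_pos _ _ _ a, glV_cellv_pos _ _ _ b]
  exact and_congr h1 h2

theorem LeafD.glue_win_neg (d : LeafD (S.rest A) (Q.rest A) E e)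
    (d' : LeafD (S.rest fun k ω => ¬ A k ω) (Q.rest fun k ω => ¬ A k ω) E e) (c : ℝ) {k : ℕ}
    (h0 : (S.F k).pb (fun ω => ¬ A k ω) ≠ 0) :
    (S.F k).rmap (fun ω => ¬ A k ω) (fc ((d.glue d').La k ⊓ Setoid.ker ((d.glue d').Y.cellv c k))) =
      fc (F := (S.F k).rest (fun ω => ¬ A k ω)) (d'.La k ⊓ Setoid.ker (d'.Y.cellv c k)) := by
  apply fc_rest_eq h0
  intro ω ω' a b
  have h1 : (glS (A k) (d.La k) (d'.La k)) ω ω' ↔ (d'.La k) ω ω' := glS_neg a b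
  have h2 : (glV d.Y d'.Y).cellv c k ω = (glV d.Y d'.Y).cellv c k ω' ↔ d'.Y.cellv c k ω = d'.Y.cellv c k ω' := by
    rw [glV_cellv_neg _ _ _ a, glV_cellv_neg _ _ _ b]
  exact and_congr h1 h2

end

/-! ### systems -/

variable {A : ∀ k, (S.F k).Ω → Prop}

/-- SYSTEMS GLUED over an event and its complement, the point is given -/
def MSys.glue (Q : S.VV M) (f : ι → Leaf (S.rest A) (Q.rest A) E)
    (f' : ι → Leaf (S.rest fun k ω => ¬ A k ω) (Q.rest fun k ω => ¬ A k ω) E) (he : ∀ i, (f' i).e = (f i).e) :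
    MSys S M E ι := ⟨Q, fun i => (f i).glue (f' i) (he i)⟩

/-- SYSTEMS OF A TYPICAL EVENT, the point is given -/
def MSys.ofTyp (Q : S.VV M) (hE : ∀ D, D ≤ E D) (hA : Typ A) (f : ι → Leaf (S.rest A) (Q.rest A) E) : MSys S M E ι :=
  ⟨Q, fun i => Leaf.ofTyp hA hE (f i)⟩

/-- the system on the event -/
def MSys.mkR (Q : S.VV M) (f : ι → Leaf (S.rest A) (Q.rest A) E) : MSys (S.rest A) M E ι := ⟨Q.rest A, f⟩

section
variable {Q : S.VV M} {f : ι → Leaf (S.rest A) (Q.rest A) E}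
  {f' : ι → Leaf (S.rest fun k ω => ¬ A k ω) (Q.rest fun k ω => ¬ A k ω) E} {he : ∀ i, (f' i).e = (f i).e}

theorem MSys.glue_cnd_pos (c : ℝ) (i : Option ι) {k : ℕ} (h0 : (S.F k).pb (A k) ≠ 0) :
    (((MSys.glue Q f f' he).cnd c i).rest A) k = (MSys.mkR Q f).cnd c i k := by
  rcases i with _ | i
  · rfl
  · exact LeafD.glue_win_pos (f i).toD ((f' i).toD.cast (he i)) c h0

theorem MSys.glue_cnd_neg (c : ℝ) (i : Option ι) {k : ℕ} (h0 : (S.F k).pb (fun ω => ¬ A k ω) ≠ 0) :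
    (((MSys.glue Q f f' he).cnd c i).rest fun k ω => ¬ A k ω) k = (MSys.mkR Q f').cnd c i k := by
  rcases i with _ | i
  · rfl
  · exact (LeafD.glue_win_neg (f i).toD ((f' i).toD.cast (he i)) c h0).trans
      (LeafD.cast_win (he i) (f' i).toD c k)

theorem MSys.ofTyp_cnd {hE : ∀ D, D ≤ E D} {hA : Typ A} (c : ℝ) (i : Option ι) {k : ℕ}
    (h0 : (S.F k).pb (A k) ≠ 0) :
    (((MSys.ofTyp Q hE hA f).cnd c i).rest A) k = (MSys.mkR Q f).cnd c i k := by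
  rcases i with _ | i
  · rfl
  · exact LeafD.glue_win_pos (f i).toD (LeafD.triv (Q.rest fun k ω => ¬ A k ω) hE (f i).e) c h0

theorem MSys.glue_PLe (hA : 0 < ul (S.pr A)) (c : ℝ) (i : Option ι) :
    PLe (((MSys.glue Q f f' he).cnd c i).rest A) ((MSys.mkR Q f).cnd c i) ∧
      PLe ((MSys.mkR Q f).cnd c i) (((MSys.glue Q f f' he).cnd c i).rest A) :=
  ⟨PLe_of_ev_eq ((pb_ne_zero hA).mono fun _ hk => MSys.glue_cnd_pos c i hk),
    PLe_of_ev_eq ((pb_ne_zero hA).mono fun _ hk => (MSys.glue_cnd_pos c i hk).symm)⟩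

theorem MSys.glue_PLe' (hA : 0 < ul (S.pr fun k ω => ¬ A k ω)) (c : ℝ) (i : Option ι) :
    PLe (((MSys.glue Q f f' he).cnd c i).rest fun k ω => ¬ A k ω) ((MSys.mkR Q f').cnd c i) ∧
      PLe ((MSys.mkR Q f').cnd c i) (((MSys.glue Q f f' he).cnd c i).rest fun k ω => ¬ A k ω) :=
  ⟨PLe_of_ev_eq ((pb_ne_zero hA).mono fun _ hk => MSys.glue_cnd_neg c i hk),
    PLe_of_ev_eq ((pb_ne_zero hA).mono fun _ hk => (MSys.glue_cnd_neg c i hk).symm)⟩

/-- labels of the glued system on the event -/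
theorem MSys.DMc.glue_rst {c : ℝ} {l : Lab S} (h : (MSys.glue Q f f' he).DMc c l) (hA : 0 < ul (S.pr A)) :
    (MSys.mkR Q f).DMc c (l.rst A) :=
  Lab.DMf.mono (Lab.DMf.rst h A hA) fun i => ⟨i, (MSys.glue_PLe hA c i).1⟩

theorem MSys.DMc.glue_rst' {c : ℝ} {l : Lab S} (h : (MSys.glue Q f f' he).DMc c l)
    (hA : 0 < ul (S.pr fun k ω => ¬ A k ω)) : (MSys.mkR Q f').DMc c (l.rst fun k ω => ¬ A k ω) :=
  Lab.DMf.mono (Lab.DMf.rst h (fun k ω => ¬ A k ω) hA) fun i => ⟨i, (MSys.glue_PLe' hA c i).1⟩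

/-- glued labels are labels of the glued system -/
theorem MSys.DMc.glueR {c : ℝ} {l₁ : Lab (S.rest A)} {l₂ : Lab (S.rest fun k ω => ¬ A k ω)}
    (h₁ : (MSys.mkR Q f).DMc c l₁) (h₂ : (MSys.mkR Q f').DMc c l₂) (hA : 0 < ul (S.pr A))
    (hA' : 0 < ul (S.pr fun k ω => ¬ A k ω)) : (MSys.glue Q f f' he).DMc c (Lab.glueR A l₁ l₂) := by
  have g₁ : l₁.DMf (fun i => ((MSys.glue Q f f' he).cnd c i).rest A) :=
    Lab.DMf.mono h₁ fun i => ⟨i, (MSys.glue_PLe hA c i).2⟩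
  have g₂ : l₂.DMf (fun i => ((MSys.glue Q f f' he).cnd c i).rest fun k ω => ¬ A k ω) :=
    Lab.DMf.mono h₂ fun i => ⟨i, (MSys.glue_PLe' hA' c i).2⟩
  exact Lab.DMf.glueR g₁ g₂

/-- labels `kappa_c` of the glued system -/
theorem MSys.IsKap.glueR [Countable ι] {c : ℝ} {l₁ : Lab (S.rest A)} {l₂ : Lab (S.rest fun k ω => ¬ A k ω)}
    (h₁ : (MSys.mkR Q f).IsKap c l₁) (h₂ : (MSys.mkR Q f').IsKap c l₂) (hA : 0 < ul (S.pr A))
    (hA' : 0 < ul (S.pr fun k ω => ¬ A k ω)) : (MSys.glue Q f f' he).IsKap c (Lab.glueR A l₁ l₂) := by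
  have g₁ : l₁.IsMaxf (fun i => ((MSys.glue Q f f' he).cnd c i).rest A) :=
    Lab.IsMaxf.congr h₁ (fun i => ⟨i, (MSys.glue_PLe hA c i).2⟩) fun i => ⟨i, (MSys.glue_PLe hA c i).1⟩
  have g₂ : l₂.IsMaxf (fun i => ((MSys.glue Q f f' he).cnd c i).rest fun k ω => ¬ A k ω) :=
    Lab.IsMaxf.congr h₂ (fun i => ⟨i, (MSys.glue_PLe' hA' c i).2⟩) fun i => ⟨i, (MSys.glue_PLe' hA' c i).1⟩
  have hB : ((MSys.glue Q f f' he).cnd c none).Bd := pcd_Bd Q
  exact Lab.IsMaxf.glueR (C := (MSys.glue Q f f' he).cnd c) (i := none) g₁ g₂ hA hA' hB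

/-- connectedness of glued systems -/
theorem MSys.Con_glue_iff [Countable ι] {c : ℝ} (hA : 0 < ul (S.pr A)) (hA' : 0 < ul (S.pr fun k ω => ¬ A k ω)) :
    (MSys.glue Q f f' he).Con c ↔ (MSys.mkR Q f).Con c ∧ (MSys.mkR Q f').Con c := by
  have hB : ((MSys.glue Q f f' he).cnd c none).Bd := pcd_Bd Q
  constructor
  · intro h
    have g₁ : Lab.Conf (fun i => ((MSys.glue Q f f' he).cnd c i).rest A) :=
      Lab.Conf.rest (C := (MSys.glue Q f f' he).cnd c) (i := none) h hA hB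
    have g₂ : Lab.Conf (fun i => ((MSys.glue Q f f' he).cnd c i).rest fun k ω => ¬ A k ω) :=
      Lab.Conf.rest (C := (MSys.glue Q f f' he).cnd c) (i := none) h hA' hB
    exact ⟨Lab.Conf.mono g₁ fun i => ⟨i, (MSys.glue_PLe hA c i).2⟩,
      Lab.Conf.mono g₂ fun i => ⟨i, (MSys.glue_PLe' hA' c i).2⟩⟩
  · rintro ⟨h₁, h₂⟩
    have g₁ : Lab.Conf (fun i => ((MSys.glue Q f f' he).cnd c i).rest A) :=
      Lab.Conf.mono h₁ fun i => ⟨i, (MSys.glue_PLe hA c i).1⟩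
    have g₂ : Lab.Conf (fun i => ((MSys.glue Q f f' he).cnd c i).rest fun k ω => ¬ A k ω) :=
      Lab.Conf.mono h₂ fun i => ⟨i, (MSys.glue_PLe' hA' c i).1⟩
    exact Lab.Conf.of_rest (C := (MSys.glue Q f f' he).cnd c) (i := none) g₁ g₂ hA hA' hB

theorem MSys.ofTyp_PLe {hE : ∀ D, D ≤ E D} {hA : Typ A} (c : ℝ) (i : Option ι) :
    PLe (((MSys.ofTyp Q hE hA f).cnd c i).rest A) ((MSys.mkR Q f).cnd c i) ∧
      PLe ((MSys.mkR Q f).cnd c i) (((MSys.ofTyp Q hE hA f).cnd c i).rest A) :=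
  ⟨PLe_of_ev_eq ((pb_ne_zero (Sp.ul_pr_typ_pos A hA)).mono fun _ hk => MSys.ofTyp_cnd c i hk),
    PLe_of_ev_eq ((pb_ne_zero (Sp.ul_pr_typ_pos A hA)).mono fun _ hk => (MSys.ofTyp_cnd c i hk).symm)⟩

theorem MSys.DMc.ofTyp_rst {hE : ∀ D, D ≤ E D} {hA : Typ A} {c : ℝ} {l : Lab S}
    (h : (MSys.ofTyp Q hE hA f).DMc c l) : (MSys.mkR Q f).DMc c (l.rst A) :=
  Lab.DMf.mono (Lab.DMf.rst h A (Sp.ul_pr_typ_pos A hA)) fun i => ⟨i, (MSys.ofTyp_PLe c i).1⟩

/-- connectedness of systems of a typical event -/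
theorem MSys.Con_ofTyp_iff [Countable ι] {hE : ∀ D, D ≤ E D} {hA : Typ A} {c : ℝ} :
    (MSys.ofTyp Q hE hA f).Con c ↔ (MSys.mkR Q f).Con c := by
  have hB : ((MSys.ofTyp Q hE hA f).cnd c none).Bd := pcd_Bd Q
  have hB' : (((MSys.ofTyp Q hE hA f).cnd c none).rest fun k ω => ¬ A k ω).Bd :=
    pcd_Bd (Q.rest fun k ω => ¬ A k ω)
  constructor
  · intro h
    have g₁ : Lab.Conf (fun i => ((MSys.ofTyp Q hE hA f).cnd c i).rest A) :=
      Lab.Conf.rest (C := (MSys.ofTyp Q hE hA f).cnd c) (i := none) h (Sp.ul_pr_typ_pos A hA) hB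
    exact Lab.Conf.mono g₁ fun i => ⟨i, (MSys.ofTyp_PLe c i).2⟩
  · intro h
    have g₁ : Lab.Conf (fun i => ((MSys.ofTyp Q hE hA f).cnd c i).rest A) :=
      Lab.Conf.mono h fun i => ⟨i, (MSys.ofTyp_PLe c i).1⟩
    exact Lab.Conf.of_typ (C := (MSys.ofTyp Q hE hA f).cnd c) (i := none) g₁ hA hB hB'

end

/-! ### refinements of the leaf -/

/-- a type of leaves with a finer partition -/
def Leaf.refn {Q : S.VV M} (l : Leaf S Q E) (W : ∀ k, Setoid (S.F k).Ω)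
    (full : Tendsto (fun k => h (fc (Setoid.ker (l.Y.cellv 1 k))) (fc (l.La k ⊓ W k)) / (S.F k).n) UF (𝓝 l.e)) :
    Leaf S Q E where
  e := l.e
  he := l.he
  La := fun k => l.La k ⊓ W k
  Y := l.Y
  F := l.F
  fn := by
    filter_upwards [l.fn] with k hk ω ω' a b z r
    exact hk ω ω' a b z r.1
  bd := l.bd
  al := l.al
  alg := l.alg
  crF := l.crF
  seg := l.seg
  pt := l.pt
  full := full

theorem Leaf.full_of_PLe {Q : S.VV M} (l : Leaf S Q E) {W : ∀ k, Setoid (S.F k).Ω}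
    (hW : PLe (fun k => fc (W k)) (fun k => fc (l.La k))) :
    Tendsto (fun k => h (fc (Setoid.ker (l.Y.cellv 1 k))) (fc (l.La k ⊓ W k)) / (S.F k).n) UF (𝓝 l.e) := by
  have h2 : Tendsto (fun k => h (fc (Setoid.ker (l.Y.cellv 1 k))) (fc (l.La k)) / (S.F k).n -
      h (fc (W k)) (fc (l.La k)) / (S.F k).n) UF (𝓝 (l.e - 0)) := l.full.sub hW
  rw [sub_zero] at h2
  refine tendsto_of_tendsto_of_tendsto_of_le_of_le h2 l.full (fun k => ?_) (fun k => ?_)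
  · show _ ≤ h (fc (Setoid.ker (l.Y.cellv 1 k))) (fc (l.La k ⊓ W k)) / (S.F k).n
    refine (le_of_eq (sub_div _ _ _).symm).trans (div_le_div_of_nonneg_right ?_ (S.F k).pos.le)
    have h3 := h_triangle (fc (Setoid.ker (l.Y.cellv 1 k))) (fc (W k)) (fc (l.La k))
    rw [fc_inf, sup_comm (fc (l.La k))]
    linarith
  · apply div_le_div_of_nonneg_right _ (S.F k).pos.le
    rw [fc_inf]
    exact h_anti le_sup_left

/-- a partition of rate zero given the leaf is added to the leaf -/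
def Leaf.ref {Q : S.VV M} (l : Leaf S Q E) (W : ∀ k, Setoid (S.F k).Ω)
    (hW : PLe (fun k => fc (W k)) (fun k => fc (l.La k))) : Leaf S Q E := l.refn W (l.full_of_PLe hW)

theorem Leaf.refn_win {Q : S.VV M} (l : Leaf S Q E) (W : ∀ k, Setoid (S.F k).Ω) (full) (c : ℝ) (k : ℕ) :
    (l.refn W full).win c k = l.win c k ⊔ fc (W k) := by
  show fc (l.La k ⊓ W k ⊓ Setoid.ker (l.Y.cellv c k)) = fc (l.La k ⊓ Setoid.ker (l.Y.cellv c k)) ⊔ fc (W k)
  rw [fc_inf, fc_inf, fc_inf, sup_right_comm]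

theorem Leaf.ref_win {Q : S.VV M} (l : Leaf S Q E) (W : ∀ k, Setoid (S.F k).Ω)
    (hW : PLe (fun k => fc (W k)) (fun k => fc (l.La k))) (c : ℝ) :
    PLe ((l.ref W hW).win c) (l.win c) ∧ PLe (l.win c) ((l.ref W hW).win c) := by
  have e1 : (l.ref W hW).win c = fun k => l.win c k ⊔ fc (W k) := funext fun k => l.refn_win W _ c k
  rw [e1]
  refine ⟨PLe.sup_le (PLe.refl _) (hW.trans (PLe_of_le fun k => ?_)), PLe_of_le fun k => le_sup_left⟩
  show fc (l.La k) ≤ fc (l.La k ⊓ Setoid.ker (l.Y.cellv c k))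
  exact fc_mono inf_le_left

/-- a system with finer leaves -/
def MSys.ref (s : MSys S M E ι) (W : ι → ∀ k, Setoid (S.F k).Ω)
    (hW : ∀ i, PLe (fun k => fc (W i k)) (fun k => fc ((s.lf i).La k))) : MSys S M E ι :=
  ⟨s.Q, fun i => (s.lf i).ref (W i) (hW i)⟩

theorem MSys.ref_cnd (s : MSys S M E ι) (W : ι → ∀ k, Setoid (S.F k).Ω)
    (hW : ∀ i, PLe (fun k => fc (W i k)) (fun k => fc ((s.lf i).La k))) (c : ℝ) (i : Option ι) :
    PLe ((s.ref W hW).cnd c i) (s.cnd c i) ∧ PLe (s.cnd c i) ((s.ref W hW).cnd c i) := by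
  rcases i with _ | i
  · exact ⟨PLe.refl _, PLe.refl _⟩
  · exact (s.lf i).ref_win (W i) (hW i) c

theorem MSys.DMc_ref_iff {s : MSys S M E ι} {W : ι → ∀ k, Setoid (S.F k).Ω}
    {hW : ∀ i, PLe (fun k => fc (W i k)) (fun k => fc ((s.lf i).La k))} {c : ℝ} {l : Lab S} :
    (s.ref W hW).DMc c l ↔ s.DMc c l :=
  ⟨fun h => Lab.DMf.mono h fun i => ⟨i, (s.ref_cnd W hW c i).1⟩,
    fun h => Lab.DMf.mono h fun i => ⟨i, (s.ref_cnd W hW c i).2⟩⟩

theorem MSys.IsKap_ref_iff {s : MSys S M E ι} {W : ι → ∀ k, Setoid (S.F k).Ω}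
    {hW : ∀ i, PLe (fun k => fc (W i k)) (fun k => fc ((s.lf i).La k))} {c : ℝ} {l : Lab S} :
    (s.ref W hW).IsKap c l ↔ s.IsKap c l :=
  ⟨fun h => Lab.IsMaxf.congr h (fun i => ⟨i, (s.ref_cnd W hW c i).1⟩) fun i => ⟨i, (s.ref_cnd W hW c i).2⟩,
    fun h => Lab.IsMaxf.congr h (fun i => ⟨i, (s.ref_cnd W hW c i).2⟩) fun i => ⟨i, (s.ref_cnd W hW c i).1⟩⟩

/-! ### families of types, images -/

/-- images of connected systems are connected -/
theorem MSys.Con.img {M' κ : ℕ} {E' : ℕ → ℕ} {s : MSys S M E ι} {c : ℝ} (h : s.Con c) (P : PMap S M M' κ) (hκ : 1 ≤ κ)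
    (hE : ∀ D, E (κ * D) ≤ E' D) : (s.img P hκ hE).Con c := fun l hl => h l (MSys.DMc.of_img (s := s) (P := P) hl)

/-- the information of `kappa_c` of an image -/
theorem MSys.IsKap.info_img_le {M' κ : ℕ} {E' : ℕ → ℕ} {s : MSys S M E ι} {c : ℝ} {P : PMap S M M' κ} {hκ : 1 ≤ κ}
    {hE : ∀ D, E (κ * D) ≤ E' D} {l l' : Lab S} (h : s.IsKap c l) (h' : (s.img P hκ hE).IsKap c l') : l'.info ≤ l.info :=
  h.2 l' (MSys.DMc.of_img (s := s) (P := P) h'.1)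

theorem MSys.Con.union {s : MSys S M E ι} {c : ℝ} (h : s.Con c) (f : ι' → Leaf S s.Q E) : (s.union f).Con c :=
  fun l hl => h l ((MSys.DMc_union_iff s f c l).1 hl).1

end

end Pool.Agent.Helper84.MT
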