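import Pool.Agent.Helper84.MT.Leaf0
import Pool.Agent.Helper84.MT.Line

/-! MULTI-TYPE LAYER: glueing of systems of leaves over an event and its complement, systems on a typical event,
refinements of the partition of a type, changes of the point, unions of families of types. -/

set_option autoImplicit false

namespace Pool.Agent.Helper84.MT

open Finset Filter Topology Matrix Pool.Agent.Helper69.RK Pool.Agent.Helper31.EC Pool.Agent.Helper31.EC.Sp
open Pool.Agent.Helper40.EL Pool.Agent.Helper89.LX Pool.Agent.Helper3.LF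

noncomputable section

variable {S T : Sp} {M : ℕ} {E : ℕ → ℕ} {ι ι' : Type}

/-- a type of leaves of dimension `e` without fullness -/
structure LeafD (S : Sp) {M : ℕ} (Q : S.VV M) (E : ℕ → ℕ) (e : ℕ) where
  La : ∀ k, Setoid (S.F k).Ω
  Y : S.VV e
  F : ∀ k, (S.F k).Ω → (Fin e → ℝ) → Fin M → ℝ
  fn : ∀ᶠ k in UF, ∀ ω ω', (S.F k).μ ω ≠ 0 → (S.F k).μ ω' ≠ 0 → (S.F k).Z ω ω' → La k ω ω' → F k ω = F k ω'
  bd : ∃ K : ℕ → ℝ, S.Sub K ∧ ∀ᶠ k in UF, ∀ ω, (S.F k).μ ω ≠ 0 → ∀ y : Fin e → ℝ, (∀ i, |y i - Y.v k ω i| ≤ 1) →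
    ∀ j, |F k ω y j| ≤ K k
  al : ∀ k, (S.F k).Ω → ℕ → Set ((Fin e → ℝ) → ℝ)
  alg : ∀ᶠ k in UF, ∀ ω, (S.F k).μ ω ≠ 0 → Alg e (Y.v k ω) (al k ω)
  crF : ∀ᶠ k in UF, ∀ ω, (S.F k).μ ω ≠ 0 → ∀ j, (fun y => F k ω y j) ∈ al k ω 1
  seg : ∀ D : ℕ, ∃ K : ℕ → ℝ, S.Sub K ∧ ∀ᶠ k in UF, ∀ ω, (S.F k).μ ω ≠ 0 → ∀ f ∈ al k ω D, ∀ y z : Fin e → ℝ,
    (∀ i, |y i - Y.v k ω i| ≤ 1) → (∀ i, |z i - Y.v k ω i| ≤ 1) →
    RemS (E D) (K k) (fun u => f (fun i => y i + u * (z i - y i))) ∧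
      BmS (K k) (fun u => f (fun i => y i + u * (z i - y i)))
  pt : ∃ K : ℕ → ℝ, S.Sub K ∧ ∀ᶠ k in UF, ∀ ω, (S.F k).μ ω ≠ 0 → ∀ i,
    |Q.v k ω i - F k ω (Y.v k ω) i| ≤ K k * S.dl 1 k

/-- the entropy of the parameter given the leaf -/
def LeafD.hY {Q : S.VV M} {e : ℕ} (d : LeafD S Q E e) (k : ℕ) : ℝ :=
  h (fc (Setoid.ker (d.Y.cellv 1 k))) (fc (d.La k)) / (S.F k).n

def Leaf.toD {Q : S.VV M} (l : Leaf S Q E) : LeafD S Q E l.e :=
  ⟨l.La, l.Y, l.F, l.fn, l.bd, l.al, l.alg, l.crF, l.seg, l.pt⟩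

def LeafD.toLeaf {Q : S.VV M} {e : ℕ} (d : LeafD S Q E e) (he : e ≤ E 0) (hf : Tendsto d.hY UF (𝓝 e)) :
    Leaf S Q E := ⟨e, he, d.La, d.Y, d.F, d.fn, d.bd, d.al, d.alg, d.crF, d.seg, d.pt, hf⟩

def LeafD.cast {Q : S.VV M} {e e' : ℕ} (he : e = e') (d : LeafD S Q E e) : LeafD S Q E e' := he ▸ d

theorem LeafD.cast_hY {Q : S.VV M} {e e' : ℕ} (he : e = e') (d : LeafD S Q E e) : (d.cast he).hY = d.hY := by
  subst he
  rfl

theorem LeafD.cast_La {Q : S.VV M} {e e' : ℕ} (he : e = e') (d : LeafD S Q E e) : (d.cast he).La = d.La := by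
  subst he
  rfl

theorem LeafD.cast_cellv {Q : S.VV M} {e e' : ℕ} (he : e = e') (d : LeafD S Q E e) (c : ℝ) (k : ℕ) :
    Setoid.ker ((d.cast he).Y.cellv c k) = Setoid.ker (d.Y.cellv c k) := by
  subst he
  rfl

/-! ### glueing -/

/-- partitions glued over an event and its complement -/
def glS {Ω : Type} (A : Ω → Prop) (R R' : Setoid Ω) : Setoid Ω where
  r := fun ω ω' => (A ω ↔ A ω') ∧ (A ω → R ω ω') ∧ (¬ A ω → R' ω ω')
  iseqv :=
    { refl := fun ω => ⟨Iff.rfl, fun _ => R.refl ω, fun _ => R'.refl ω⟩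
      symm := fun h => ⟨h.1.symm, fun a => R.symm (h.2.1 (h.1.2 a)), fun a => R'.symm (h.2.2 fun b => a (h.1.1 b))⟩
      trans := fun h g => ⟨h.1.trans g.1, fun a => R.trans (h.2.1 a) (g.2.1 (h.1.1 a)),
        fun a => R'.trans (h.2.2 a) (g.2.2 fun b => a (h.1.2 b))⟩ }

theorem glS_pos {Ω : Type} {A : Ω → Prop} {R R' : Setoid Ω} {ω ω' : Ω} (a : A ω) (b : A ω') :
    glS A R R' ω ω' ↔ R ω ω' := ⟨fun g => g.2.1 a, fun g => ⟨⟨fun _ => b, fun _ => a⟩, fun _ => g, fun c => absurd a c⟩⟩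

theorem glS_neg {Ω : Type} {A : Ω → Prop} {R R' : Setoid Ω} {ω ω' : Ω} (a : ¬ A ω) (b : ¬ A ω') :
    glS A R R' ω ω' ↔ R' ω ω' :=
  ⟨fun g => g.2.2 a, fun g => ⟨⟨fun c => absurd c a, fun c => absurd c b⟩, fun c => absurd c a, fun _ => g⟩⟩

/-- partitions which agree on an event -/
theorem fc_rest_eq {F : FSp} {A : F.Ω → Prop} (h0 : F.pb A ≠ 0) {R R' : Setoid F.Ω}
    (h : ∀ ω ω', A ω → A ω' → (R ω ω' ↔ R' ω ω')) : fc (F := F.rest A) R = fc (F := F.rest A) R' := by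
  apply le_antisymm
  · apply fc_le
    intro ω ω' a b _ c
    exact (h ω ω' ((F.rest_supp A ω a).2 h0) ((F.rest_supp A ω' b).2 h0)).2 c
  · apply fc_le
    intro ω ω' a b _ c
    exact (h ω ω' ((F.rest_supp A ω a).2 h0) ((F.rest_supp A ω' b).2 h0)).1 c

open Classical in
/-- vectors glued over an event and its complement -/
def glV {m : ℕ} {A : ∀ k, (S.F k).Ω → Prop} (y : (S.rest A).VV m) (y' : (S.rest fun k ω => ¬ A k ω).VV m) : S.VV m where
  v := fun k ω => if A k ω then y.v k ω else y'.v k ω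
  bd := by
    obtain ⟨K, hK, h1⟩ := y.bd
    obtain ⟨L, hL, h2⟩ := y'.bd
    have hK' : S.Sub K := hK
    have hL' : S.Sub L := hL
    refine ⟨fun k => K k + L k, hK'.add hL', ?_⟩
    filter_upwards [h1, h2, hK'.1, hL'.1] with k a b hK0 hL0 ω hω i
    by_cases hA : A k ω
    · rw [if_pos hA]
      have := a ω ((S.F k).rest_supp' (A k) ω hω hA) i
      linarith
    · rw [if_neg hA]
      have := b ω ((S.F k).rest_supp' (fun ω => ¬ A k ω) ω hω hA) i
      linarith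

theorem glV_pos {m : ℕ} {A : ∀ k, (S.F k).Ω → Prop} (y : (S.rest A).VV m) (y' : (S.rest fun k ω => ¬ A k ω).VV m)
    {k : ℕ} {ω : (S.F k).Ω} (h : A k ω) : (glV y y').v k ω = y.v k ω := by
  unfold glV
  exact if_pos h

theorem glV_neg {m : ℕ} {A : ∀ k, (S.F k).Ω → Prop} (y : (S.rest A).VV m) (y' : (S.rest fun k ω => ¬ A k ω).VV m)
    {k : ℕ} {ω : (S.F k).Ω} (h : ¬ A k ω) : (glV y y').v k ω = y'.v k ω := by
  unfold glV
  exact if_neg h

theorem glV_cellv_pos {m : ℕ} {A : ∀ k, (S.F k).Ω → Prop} (y : (S.rest A).VV m)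
    (y' : (S.rest fun k ω => ¬ A k ω).VV m) (c : ℝ) {k : ℕ} {ω : (S.F k).Ω} (h : A k ω) :
    (glV y y').cellv c k ω = y.cellv c k ω := by
  unfold VV.cellv
  rw [glV_pos y y' h]
  rfl

theorem glV_cellv_neg {m : ℕ} {A : ∀ k, (S.F k).Ω → Prop} (y : (S.rest A).VV m)
    (y' : (S.rest fun k ω => ¬ A k ω).VV m) (c : ℝ) {k : ℕ} {ω : (S.F k).Ω} (h : ¬ A k ω) :
    (glV y y').cellv c k ω = y'.cellv c k ω := by
  unfold VV.cellv
  rw [glV_neg y y' h]
  rfl

open Classical in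
/-- LEAVES GLUED over an event and its complement -/
def LeafD.glue {A : ∀ k, (S.F k).Ω → Prop} {Q : S.VV M} {e : ℕ} (d : LeafD (S.rest A) (Q.rest A) E e)
    (d' : LeafD (S.rest fun k ω => ¬ A k ω) (Q.rest fun k ω => ¬ A k ω) E e) : LeafD S Q E e where
  La := fun k => glS (A k) (d.La k) (d'.La k)
  Y := glV d.Y d'.Y
  F := fun k ω => if A k ω then d.F k ω else d'.F k ω
  fn := by
    filter_upwards [d.fn, d'.fn] with k h1 h2 ω ω' a b z r
    by_cases hA : A k ω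
    · have hA' := r.1.1 hA
      rw [if_pos hA, if_pos hA']
      exact h1 ω ω' ((S.F k).rest_supp' (A k) ω a hA) ((S.F k).rest_supp' (A k) ω' b hA') z (r.2.1 hA)
    · have hA' : ¬ A k ω' := fun c => hA (r.1.2 c)
      rw [if_neg hA, if_neg hA']
      exact h2 ω ω' ((S.F k).rest_supp' (fun ω => ¬ A k ω) ω a hA)
        ((S.F k).rest_supp' (fun ω => ¬ A k ω) ω' b hA') z (r.2.2 hA)
  bd := by
    obtain ⟨K, hK, h1⟩ := d.bd
    obtain ⟨L, hL, h2⟩ := d'.bd
    have hK' : S.Sub K := hK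
    have hL' : S.Sub L := hL
    refine ⟨fun k => K k + L k, hK'.add hL', ?_⟩
    filter_upwards [h1, h2, hK'.1, hL'.1] with k a b hK0 hL0 ω hω y hy j
    by_cases hA : A k ω
    · rw [glV_pos _ _ hA] at hy
      rw [if_pos hA]
      have := a ω ((S.F k).rest_supp' (A k) ω hω hA) y hy j
      linarith
    · rw [glV_neg _ _ hA] at hy
      rw [if_neg hA]
      have := b ω ((S.F k).rest_supp' (fun ω => ¬ A k ω) ω hω hA) y hy j
      linarith
  al := fun k ω => if A k ω then d.al k ω else d'.al k ω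
  alg := by
    filter_upwards [d.alg, d'.alg] with k a b ω hω
    by_cases hA : A k ω
    · rw [glV_pos _ _ hA, if_pos hA]
      exact a ω ((S.F k).rest_supp' (A k) ω hω hA)
    · rw [glV_neg _ _ hA, if_neg hA]
      exact b ω ((S.F k).rest_supp' (fun ω => ¬ A k ω) ω hω hA)
  crF := by
    filter_upwards [d.crF, d'.crF] with k a b ω hω j
    by_cases hA : A k ω
    · rw [if_pos hA, if_pos hA]
      exact a ω ((S.F k).rest_supp' (A k) ω hω hA) j
    · rw [if_neg hA, if_neg hA]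
      exact b ω ((S.F k).rest_supp' (fun ω => ¬ A k ω) ω hω hA) j
  seg := by
    intro D
    obtain ⟨K, hK, h1⟩ := d.seg D
    obtain ⟨L, hL, h2⟩ := d'.seg D
    have hK' : S.Sub K := hK
    have hL' : S.Sub L := hL
    refine ⟨fun k => K k + L k, hK'.add hL', ?_⟩
    filter_upwards [h1, h2, hK'.1, hL'.1] with k a b hK0 hL0 ω hω f hf y z hy hz
    by_cases hA : A k ω
    · rw [glV_pos _ _ hA] at hy hz
      rw [if_pos hA] at hf
      obtain ⟨h3, h4⟩ := a ω ((S.F k).rest_supp' (A k) ω hω hA) f hf y z hy hz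
      exact ⟨h3.mono le_rfl hK0 (by linarith), h4.mono (by linarith)⟩
    · rw [glV_neg _ _ hA] at hy hz
      rw [if_neg hA] at hf
      obtain ⟨h3, h4⟩ := b ω ((S.F k).rest_supp' (fun ω => ¬ A k ω) ω hω hA) f hf y z hy hz
      exact ⟨h3.mono le_rfl hL0 (by linarith), h4.mono (by linarith)⟩
  pt := by
    obtain ⟨K, hK, h1⟩ := d.pt
    obtain ⟨L, hL, h2⟩ := d'.pt
    have hK' : S.Sub K := hK
    have hL' : S.Sub L := hL
    refine ⟨fun k => K k + L k, hK'.add hL', ?_⟩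
    filter_upwards [h1, h2, hK'.1, hL'.1] with k a b hK0 hL0 ω hω i
    have hd := (S.dl_pos 1 k).le
    by_cases hA : A k ω
    · rw [glV_pos _ _ hA, if_pos hA]
      refine (a ω ((S.F k).rest_supp' (A k) ω hω hA) i).trans ?_
      exact mul_le_mul_of_nonneg_right (by linarith) hd
    · rw [glV_neg _ _ hA, if_neg hA]
      refine (b ω ((S.F k).rest_supp' (fun ω => ¬ A k ω) ω hω hA) i).trans ?_
      exact mul_le_mul_of_nonneg_right (by linarith) hd

section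
variable {A : ∀ k, (S.F k).Ω → Prop} {Q : S.VV M} {e : ℕ} (d : LeafD (S.rest A) (Q.rest A) E e)
  (d' : LeafD (S.rest fun k ω => ¬ A k ω) (Q.rest fun k ω => ¬ A k ω) E e)

/-- the entropy of the parameter of glued leaves -/
theorem LeafD.glue_hY (k : ℕ) : |(d.glue d').hY k - (S.pr A k * d.hY k + (1 - S.pr A k) * d'.hY k)| ≤ 1 / (S.F k).n := by
  have hn := (S.F k).pos
  have h1 := (S.F k).h_rsplit (A k) (fc (Setoid.ker ((d.glue d').Y.cellv 1 k))) (fc ((d.glue d').La k))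
  have e1 : (S.F k).pb (A k) * h ((S.F k).rmap (A k) (fc (Setoid.ker ((d.glue d').Y.cellv 1 k))))
      ((S.F k).rmap (A k) (fc ((d.glue d').La k))) = (S.F k).pb (A k) * (d.hY k * (S.F k).n) := by
    by_cases h0 : (S.F k).pb (A k) = 0
    · rw [h0, zero_mul, zero_mul]
    · congr 1
      have a1 : (S.F k).rmap (A k) (fc (Setoid.ker ((d.glue d').Y.cellv 1 k))) =
          fc (F := (S.F k).rest (A k)) (Setoid.ker (d.Y.cellv 1 k)) := by
        apply fc_rest_eq h0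
        intro ω ω' a b
        show (glV d.Y d'.Y).cellv 1 k ω = (glV d.Y d'.Y).cellv 1 k ω' ↔ _
        rw [glV_cellv_pos _ _ _ a, glV_cellv_pos _ _ _ b]
        exact Iff.rfl
      have a2 : (S.F k).rmap (A k) (fc ((d.glue d').La k)) = fc (F := (S.F k).rest (A k)) (d.La k) := by
        apply fc_rest_eq h0
        intro ω ω' a b
        exact glS_pos a b
      rw [a1, a2]
      unfold LeafD.hY
      show _ = h (fc (F := (S.F k).rest (A k)) (Setoid.ker (d.Y.cellv 1 k))) (fc (d.La k)) / (S.F k).n * (S.F k).n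
      rw [div_mul_cancel₀ _ hn.ne']
  have e2 : (1 - (S.F k).pb (A k)) * h ((S.F k).rmap (fun ω => ¬ A k ω) (fc (Setoid.ker ((d.glue d').Y.cellv 1 k))))
      ((S.F k).rmap (fun ω => ¬ A k ω) (fc ((d.glue d').La k))) =
      (1 - (S.F k).pb (A k)) * (d'.hY k * (S.F k).n) := by
    by_cases h0 : (S.F k).pb (fun ω => ¬ A k ω) = 0
    · have h2 := (S.F k).pb_add_compl (A k)
      rw [h0, add_zero] at h2
      rw [h2, sub_self, zero_mul, zero_mul]
    · congr 1
      have a1 : (S.F k).rmap (fun ω => ¬ A k ω) (fc (Setoid.ker ((d.glue d').Y.cellv 1 k))) =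
          fc (F := (S.F k).rest (fun ω => ¬ A k ω)) (Setoid.ker (d'.Y.cellv 1 k)) := by
        apply fc_rest_eq h0
        intro ω ω' a b
        show (glV d.Y d'.Y).cellv 1 k ω = (glV d.Y d'.Y).cellv 1 k ω' ↔ _
        rw [glV_cellv_neg _ _ _ a, glV_cellv_neg _ _ _ b]
        exact Iff.rfl
      have a2 : (S.F k).rmap (fun ω => ¬ A k ω) (fc ((d.glue d').La k)) =
          fc (F := (S.F k).rest (fun ω => ¬ A k ω)) (d'.La k) := by
        apply fc_rest_eq h0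
        intro ω ω' a b
        exact glS_neg a b
      rw [a1, a2]
      unfold LeafD.hY
      show _ = h (fc (F := (S.F k).rest (fun ω => ¬ A k ω)) (Setoid.ker (d'.Y.cellv 1 k))) (fc (d'.La k)) /
        (S.F k).n * (S.F k).n
      rw [div_mul_cancel₀ _ hn.ne']
  rw [e1, e2] at h1
  have e3 : (d.glue d').hY k = h (fc (Setoid.ker ((d.glue d').Y.cellv 1 k))) (fc ((d.glue d').La k)) / (S.F k).n := rfl
  have e4 : S.pr A k = (S.F k).pb (A k) := rfl
  have e5 : (d.glue d').hY k - (S.pr A k * d.hY k + (1 - S.pr A k) * d'.hY k) =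
      (h (fc (Setoid.ker ((d.glue d').Y.cellv 1 k))) (fc ((d.glue d').La k)) -
        ((S.F k).pb (A k) * (d.hY k * (S.F k).n) + (1 - (S.F k).pb (A k)) * (d'.hY k * (S.F k).n))) / (S.F k).n := by
    rw [e3, e4, sub_div]
    congr 1
    field_simp
  rw [e5, abs_div, abs_of_pos hn]
  apply div_le_div_of_nonneg_right _ hn.le
  rw [abs_le]
  constructor <;> linarith [h1.1, h1.2]

theorem LeafD.glue_full (h1 : Tendsto d.hY UF (𝓝 e)) (h2 : Tendsto d'.hY UF (𝓝 e)) :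
    Tendsto (d.glue d').hY UF (𝓝 e) := by
  have hp := ul_tendsto (UB_pr (S := S) A)
  have h3 := (hp.mul h1).add ((hp.const_sub 1).mul h2)
  have e1 : ul (S.pr A) * (e : ℝ) + (1 - ul (S.pr A)) * e = e := by ring
  rw [e1] at h3
  have h4 : Tendsto (fun k => (d.glue d').hY k - (S.pr A k * d.hY k + (1 - S.pr A k) * d'.hY k)) UF (𝓝 0) := by
    rw [tendsto_zero_iff_abs_tendsto_zero]
    exact squeeze_zero (fun k => abs_nonneg _) (fun k => d.glue_hY d' k) (S.div_n_tendsto 1)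
  have h5 := h4.add h3
  rw [zero_add] at h5
  refine h5.congr fun k => ?_
  ring

theorem LeafD.glue_typ (hA : Typ A) (h1 : Tendsto d.hY UF (𝓝 e)) : Tendsto (d.glue d').hY UF (𝓝 e) := by
  have hp : Tendsto (S.pr A) UF (𝓝 1) := (Typ_iff A).mp hA
  have hb : ∀ᶠ k in UF, d'.hY k ≤ e * 1 + 1 := h_cell_le d'.Y zero_le_one (fun k => fc (d'.La k)) 1 one_pos
  have h3 := hp.mul h1
  rw [one_mul] at h3
  have h6 : Tendsto (fun k => (1 - S.pr A k) * d'.hY k) UF (𝓝 0) := by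
    have h7 : Tendsto (fun k => (1 - S.pr A k) * ((e : ℝ) * 1 + 1)) UF (𝓝 0) := by
      have := (hp.const_sub 1).mul_const ((e : ℝ) * 1 + 1)
      rwa [sub_self, zero_mul] at this
    refine squeeze_zero' (Eventually.of_forall fun k => ?_) ?_ h7
    · exact mul_nonneg (sub_nonneg.mpr ((S.F k).pb_le_one _)) (div_nonneg (h_nonneg _ _) (S.F k).pos.le)
    · filter_upwards [hb] with k hk
      exact mul_le_mul_of_nonneg_left hk (sub_nonneg.mpr ((S.F k).pb_le_one _))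
  have h4 : Tendsto (fun k => (d.glue d').hY k - (S.pr A k * d.hY k + (1 - S.pr A k) * d'.hY k)) UF (𝓝 0) := by
    rw [tendsto_zero_iff_abs_tendsto_zero]
    exact squeeze_zero (fun k => abs_nonneg _) (fun k => d.glue_hY d' k) (S.div_n_tendsto 1)
  have h5 := h4.add (h3.add h6)
  rw [zero_add, add_zero] at h5
  refine h5.congr fun k => ?_
  ring

end

/-- the trivial leaf: the point itself, constant charts -/
def LeafD.triv (Q : S.VV M) (hE : ∀ D, D ≤ E D) (e : ℕ) : LeafD S Q E e where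
  La := fun k => Setoid.ker (Q.cellv 1 k)
  Y := ⟨fun _ _ _ => 0, fun _ => 0, S.Sub_const le_rfl, Eventually.of_forall fun _ _ _ _ => by rw [abs_zero]⟩
  F := fun k ω _ j => rnd (S.dl 1 k) (Q.v k ω j)
  fn := Eventually.of_forall fun k ω ω' _ _ _ r => by
    funext y j
    exact rnd_of_cell r j
  bd := by
    obtain ⟨K, hK, hb⟩ := Q.bd
    refine ⟨fun k => K k + 1, hK.add (S.Sub_const zero_le_one), ?_⟩
    filter_upwards [hb] with k hk ω hω y _ j
    exact (rnd_abs (S.dl_pos 1 k) (dl_one_le S k) _).trans (by linarith [hk ω hω j])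
  al := fun _ _ => polyAl e 1
  alg := Eventually.of_forall fun k ω _ => polyAl_alg le_rfl _
  crF := Eventually.of_forall fun k ω _ j => ⟨MvPolynomial.C (rnd (S.dl 1 k) (Q.v k ω j)), by
    rw [MvPolynomial.totalDegree_C]
    exact Nat.zero_le _, by
    funext y
    rw [MvPolynomial.eval_C]⟩
  seg := by
    intro D
    obtain ⟨B, hB1, hB⟩ := seg_mv (1 * D) e
    refine ⟨fun _ => B, S.Sub_const (by linarith), Eventually.of_forall fun k ω _ f hf y z _ _ => ?_⟩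
    obtain ⟨P, hP, rfl⟩ := hf
    exact ⟨(hB P hP y z).1.mono (by rw [one_mul]; exact hE D) (by linarith) le_rfl, (hB P hP y z).2⟩
  pt := by
    refine ⟨fun _ => 1, S.Sub_const zero_le_one, Eventually.of_forall fun k ω _ i => ?_⟩
    rw [one_mul]
    exact rnd_le (S.dl_pos 1 k) _

/-- GLUED LEAVES of the same dimension -/
def Leaf.glue {A : ∀ k, (S.F k).Ω → Prop} {Q : S.VV M} (l : Leaf (S.rest A) (Q.rest A) E)
    (l' : Leaf (S.rest fun k ω => ¬ A k ω) (Q.rest fun k ω => ¬ A k ω) E) (he : l'.e = l.e) : Leaf S Q E :=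
  (l.toD.glue (l'.toD.cast he)).toLeaf l.he (by
    apply LeafD.glue_full
    · exact l.full
    · rw [LeafD.cast_hY]
      have e1 : ((l'.e : ℕ) : ℝ) = l.e := by exact_mod_cast he
      rw [← e1]
      exact l'.full)

/-- LEAVES OF A TYPICAL EVENT are leaves of the space -/
def Leaf.ofTyp {A : ∀ k, (S.F k).Ω → Prop} (hA : Typ A) {Q : S.VV M} (hE : ∀ D, D ≤ E D)
    (l : Leaf (S.rest A) (Q.rest A) E) : Leaf S Q E :=
  (l.toD.glue (LeafD.triv (Q.rest fun k ω => ¬ A k ω) hE l.e)).toLeaf l.he (LeafD.glue_typ _ _ hA l.full)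

end

end Pool.Agent.Helper84.MT
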